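import Pool.Agent.H34CP.Gr.Cut

/-!
# From the abstract `P10` pair to the Petersen graph, and the statement of the graph side
-/

namespace Pool.Agent.H34CP.Gr

open Pool.Agent.H66.GD Pool.Agent.H21.PT Finset
open scoped Classical

universe u

/-- The abstract `P10` pair: `x a b c d` is one circuit of `F`, `y b' d' a' c'` the other one
(where `a' = mu a` and so on). -/
def Pair.IsP10 {E : Type u} (P : Pair E) : Prop :=
  ∃ a b c d : E, (∀ v, v = a ∨ v = b ∨ v = c ∨ v = d ∨ v = P.mu a ∨ v = P.mu b ∨ v = P.mu c ∨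
      v = P.mu d) ∧
    P.p0 = a ∧ P.al a = d ∧ P.al b = c ∧ P.be a = b ∧ P.be c = d ∧
    (P.q0 = P.mu b ∨ P.q0 = P.mu c) ∧ P.be (P.mu b) = P.mu c ∧ P.be (P.mu a) = P.mu d ∧
    P.al (P.mu b) = P.mu d ∧ P.al (P.mu a) = P.mu c

/-- The Petersen graph: the pentagon `(i, false)` and the pentagram `(i, true)`. -/
def P10 : SimpleGraph (ZMod 5 × Bool) where
  Adj u v := (u.2 = false ∧ v.2 = false ∧ (v.1 = u.1 + 1 ∨ u.1 = v.1 + 1)) ∨
    (u.2 = true ∧ v.2 = true ∧ (v.1 = u.1 + 2 ∨ u.1 = v.1 + 2)) ∨ (u.1 = v.1 ∧ u.2 ≠ v.2)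
  symm := ⟨by
    rintro u v (⟨h1, h2, h3⟩ | ⟨h1, h2, h3⟩ | ⟨h1, h2⟩)
    · exact Or.inl ⟨h2, h1, h3.symm⟩
    · exact Or.inr (Or.inl ⟨h2, h1, h3.symm⟩)
    · exact Or.inr (Or.inr ⟨h1.symm, h2.symm⟩)⟩
  loopless := ⟨by decide⟩

/-- `(G, w)` is isomorphic to the Petersen graph in which the spokes have weight two. -/
def IsP10 {V : Type u} (G : SimpleGraph V) (w : Sym2 V → ℕ) : Prop :=
  ∃ φ : G ≃g P10, ∀ u v, G.Adj u v → (w s(u, v) = 2 ↔ (φ u).1 = (φ v).1)

variable {V : Type u} [Fintype V] {G : SimpleGraph V} {w : Sym2 V → ℕ} {x y : V}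
  {m : V → V} {c : V → V → Prop} {S : V → Prop} {P : Pair {v // S v}}

theorem isP10_of_map (hw : IsWeight G w) (hm : Typ G w m) (f : ZMod 5 → V)
    (hinj : Function.Injective f) (hcross : ∀ i j, f i ≠ m (f j))
    (hsurj : ∀ v, ∃ i, v = f i ∨ v = m (f i)) (hout : ∀ i, W1 G w (f i) (f (i + 1)))
    (hin : ∀ i, W1 G w (m (f i)) (m (f (i + 2)))) : IsP10 G w := by
  have hmi : ∀ u v, m u = m v → u = v := fun u v h => by rw [← hm.invol u, h, hm.invol]
  let ψ : ZMod 5 × Bool → V := fun p => if p.2 = true then m (f p.1) else f p.1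
  have hf : ∀ i, ψ (i, false) = f i := fun i => if_neg (by simp)
  have ht : ∀ i, ψ (i, true) = m (f i) := fun i => if_pos rfl
  have hψ : Function.Bijective ψ := by
    constructor
    · rintro ⟨i, b⟩ ⟨j, b'⟩ h
      rcases b with _ | _ <;> rcases b' with _ | _
      · rw [hf, hf] at h; rw [hinj h]
      · rw [hf, ht] at h; exact absurd h (hcross _ _)
      · rw [hf, ht] at h; exact absurd h.symm (hcross _ _)
      · rw [ht, ht] at h; rw [hinj (hmi _ _ h)]
    · intro v
      obtain ⟨i, h | h⟩ := hsurj v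
      · exact ⟨(i, false), by rw [hf, h]⟩
      · exact ⟨(i, true), by rw [ht, h]⟩
  have hout' : ∀ i, W1 G w (f i) (f (i - 1)) := fun i => by
    have := hout (i - 1)
    rw [sub_add_cancel] at this
    exact W1_symm this
  have hin' : ∀ i, W1 G w (m (f i)) (m (f (i - 2))) := fun i => by
    have := hin (i - 2)
    rw [sub_add_cancel] at this
    exact W1_symm this
  have n1 : ∀ i : ZMod 5, i + 1 ≠ i - 1 := by decide
  have n2 : ∀ i : ZMod 5, i + 2 ≠ i - 2 := by decide
  have houtc : ∀ i u, W1 G w (f i) u → u = f (i + 1) ∨ u = f (i - 1) := by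
    intro i u hu
    obtain ⟨b, hb, hb'⟩ := hm.other (hout i)
    have h1 := (hb' _).1 (hout' i)
    rcases h1 with h1 | h1
    · exact absurd (hinj h1).symm (n1 i)
    · rw [h1]; exact (hb' u).1 hu
  have hinc : ∀ i u, W1 G w (m (f i)) u → u = m (f (i + 2)) ∨ u = m (f (i - 2)) := by
    intro i u hu
    obtain ⟨b, hb, hb'⟩ := hm.other (hin i)
    have h1 := (hb' _).1 (hin' i)
    rcases h1 with h1 | h1
    · exact absurd (hinj (hmi _ _ h1)).symm (n2 i)
    · rw [h1]; exact (hb' u).1 hu
  have hadj : ∀ p q, G.Adj (ψ p) (ψ q) ↔ P10.Adj p q := by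
    rintro ⟨i, b⟩ ⟨j, b'⟩
    constructor
    · intro h
      rcases adj_cases hw h with h1 | h1
      · rcases b with _ | _
        · rw [hf] at h1
          rcases houtc i _ h1 with h2 | h2
          · rw [← hf (i + 1)] at h2
            have h3 := hψ.1 h2
            rw [Prod.mk.injEq] at h3
            exact Or.inl ⟨rfl, h3.2, Or.inl h3.1⟩
          · rw [← hf (i - 1)] at h2
            have h3 := hψ.1 h2
            rw [Prod.mk.injEq] at h3
            exact Or.inl ⟨rfl, h3.2, Or.inr (by simp [h3.1])⟩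
        · rw [ht] at h1
          rcases hinc i _ h1 with h2 | h2
          · rw [← ht (i + 2)] at h2
            have h3 := hψ.1 h2
            rw [Prod.mk.injEq] at h3
            exact Or.inr (Or.inl ⟨rfl, h3.2, Or.inl h3.1⟩)
          · rw [← ht (i - 2)] at h2
            have h3 := hψ.1 h2
            rw [Prod.mk.injEq] at h3
            exact Or.inr (Or.inl ⟨rfl, h3.2, Or.inr (by simp [h3.1])⟩)
      · have h2 := hm.uniq _ _ h1
        rcases b with _ | _
        · rw [hf, ← ht] at h2
          have h3 := hψ.1 h2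
          rw [Prod.mk.injEq] at h3
          exact Or.inr (Or.inr ⟨h3.1.symm, by rw [h3.2]; simp⟩)
        · rw [ht, hm.invol, ← hf] at h2
          have h3 := hψ.1 h2
          rw [Prod.mk.injEq] at h3
          exact Or.inr (Or.inr ⟨h3.1.symm, by rw [h3.2]; simp⟩)
    · rintro (⟨h1, h2, h3⟩ | ⟨h1, h2, h3⟩ | ⟨h1, h2⟩)
      · simp only at h1 h2 h3
        subst h1; subst h2
        rw [hf, hf]
        rcases h3 with rfl | rfl
        · exact (hout i).1
        · exact (hout j).1.symm
      · simp only at h1 h2 h3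
        subst h1; subst h2
        rw [ht, ht]
        rcases h3 with rfl | rfl
        · exact (hin i).1
        · exact (hin j).1.symm
      · simp only at h1 h2
        subst h1
        rcases b with _ | _ <;> rcases b' with _ | _
        · exact absurd rfl h2
        · rw [hf, ht]; exact (hm.adj _).1
        · rw [hf, ht]; exact (hm.adj _).1.symm
        · exact absurd rfl h2
  have hφ : ∀ u, ψ ((Equiv.ofBijective ψ hψ).symm u) = u := fun u =>
    (Equiv.ofBijective ψ hψ).apply_symm_apply u
  let φ : G ≃g P10 :=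
    { toEquiv := (Equiv.ofBijective ψ hψ).symm
      map_rel_iff' := by
        intro u v
        rw [← hadj, hφ, hφ] }
  refine ⟨φ, ?_⟩
  have key : ∀ p q, G.Adj (ψ p) (ψ q) → (w s(ψ p, ψ q) = 2 ↔ p.1 = q.1) := by
    rintro ⟨i, b⟩ ⟨j, b'⟩ h
    simp only
    constructor
    · intro h1
      have h2 := hm.uniq _ _ (show W2 G w _ _ from ⟨h, h1⟩)
      rcases b with _ | _
      · rw [hf, ← ht] at h2
        have h3 := hψ.1 h2
        rw [Prod.mk.injEq] at h3
        exact h3.1.symm
      · rw [ht, hm.invol, ← hf] at h2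
        have h3 := hψ.1 h2
        rw [Prod.mk.injEq] at h3
        exact h3.1.symm
    · rintro rfl
      rcases b with _ | _ <;> rcases b' with _ | _
      · exact absurd h (G.loopless.irrefl _)
      · rw [hf, ht]; exact (hm.adj _).2
      · rw [hf, ht, Sym2.eq_swap]; exact (hm.adj _).2
      · exact absurd h (G.loopless.irrefl _)
  intro u v huv
  obtain ⟨p, rfl⟩ := hψ.2 u
  obtain ⟨q, rfl⟩ := hψ.2 v
  have e1 : φ (ψ p) = p := (Equiv.ofBijective ψ hψ).symm_apply_apply p
  have e2 : φ (ψ q) = q := (Equiv.ofBijective ψ hψ).symm_apply_apply q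
  rw [e1, e2]
  exact key p q huv

theorem isP10_of_dict (hw : IsWeight G w) (d : Dict G w x y m c S P)
    (hcut : P.Cuts) (hr : ¬ (FG G w).Reachable x y) (hP : P.IsP10) : IsP10 G w := by
  obtain ⟨a, b, c', d', hall, h1, h2, h3, h4, h5, h6, h7, h8, h9, h10⟩ := hP
  have hba : P.be b = a := by rw [← h4, P.be_be]
  have hda : P.al d' = a := by rw [← h2, P.al_al]
  -- the four ends are different
  have nab : a ≠ b := fun h => P.be_ne a (by rw [h4, h])
  have nad : a ≠ d' := fun h => P.al_ne a (by rw [h2, h])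
  have nbc : b ≠ c' := fun h => P.al_ne b (by rw [h3, h])
  have ncd : c' ≠ d' := fun h => P.be_ne c' (by rw [h5, h])
  have nbd : b ≠ d' := fun h => hcut.digon b (by rw [hba, h, hda])
  have nac : a ≠ c' := fun h => nbd (by rw [← h4, h, h5])
  have hmm : ∀ u v, P.mu u = P.mu v → u = v := fun u v h => by
    rw [← P.mu_mu u, h, P.mu_mu]
  have adj : ∀ u v, W1 G w u v → (FG G w).Reachable u v := fun u v h =>
    SimpleGraph.Adj.reachable h
  -- the outer circuit
  have hxa : W1 G w x a := by rw [← h1]; exact d.p0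
  have hxd : W1 G w x d' := by
    have := d.al_p0
    rwa [h1, h2] at this
  have hab : W1 G w a b := by
    rcases (d.be a b).2 h4.symm with h | h
    · exact h.1
    · exact absurd ((adj _ _ hxa).trans (adj _ _ h.1).symm) hr
  have hbc : W1 G w b c' := by
    rcases (d.al b c').2 h3.symm with h | h
    · exact h.1
    · exfalso
      rcases (d.x_nbr b).1 h.1 with h | h
      · exact nab (h.trans h1).symm
      · rw [h1, h2] at h
        exact nbd h
  have hcd : W1 G w c' d' := by
    rcases (d.be c' d').2 h5.symm with h | h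
    · exact h.1
    · exact absurd ((adj _ _ hxd).trans (adj _ _ h.2.1).symm) hr
  -- the inner circuit
  have hcb : P.be (P.mu c') = P.mu b := by rw [← h7, P.be_be]
  have hq := d.q0
  have hq' := d.swap.al_p0
  rw [show P.swap.al P.swap.p0 = P.be P.q0 from rfl] at hq'
  have hyb : W1 G w y (P.mu b) := by
    rcases h6 with h6 | h6
    · rw [← h6]; exact hq
    · rw [h6, hcb] at hq'; exact hq'
  have hyc : W1 G w y (P.mu c') := by
    rcases h6 with h6 | h6
    · rw [h6, h7] at hq'; exact hq'
    · rw [← h6]; exact hq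
  have hbd : W1 G w (P.mu b) (P.mu d') := by
    rcases (d.al _ _).2 h9.symm with h | h
    · exact h.1
    · exact absurd ((adj _ _ h.1).trans (adj _ _ hyb).symm) hr
  have hac : W1 G w (P.mu a) (P.mu c') := by
    rcases (d.al _ _).2 h10.symm with h | h
    · exact h.1
    · exact absurd ((adj _ _ h.2.1).trans (adj _ _ hyc).symm) hr
  have had : W1 G w (P.mu a) (P.mu d') := by
    rcases (d.be _ _).2 h8.symm with h | h
    · exact h.1
    · exfalso
      have h' : P.mu a = P.mu b ∨ P.mu a = P.mu c' := by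
        rcases (d.swap.x_nbr _).1 h.1 with h | h
        · rw [show P.swap.p0 = P.q0 from rfl] at h
          rcases h6 with h6 | h6
          · exact Or.inl (h.trans h6)
          · exact Or.inr (h.trans h6)
        · rw [show P.swap.al P.swap.p0 = P.be P.q0 from rfl] at h
          rcases h6 with h6 | h6
          · rw [h6, h7] at h; exact Or.inr h
          · rw [h6, hcb] at h; exact Or.inl h
      rcases h' with h' | h'
      · exact nab (hmm _ _ h')
      · exact nac (hmm _ _ h')
  have hmx : m x = y := (d.hm.uniq _ _ d.hxy).symm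
  let f : ZMod 5 → V := ![x, (a : V), (b : V), (c' : V), (d' : V)]
  have f0 : f 0 = x := rfl
  have f1 : f 1 = a := rfl
  have f2 : f 2 = b := rfl
  have f3 : f 3 = c' := rfl
  have f4 : f 4 = d' := rfl
  have ma : m a = P.mu a := (d.mu a).symm
  have mb : m b = P.mu b := (d.mu b).symm
  have mc : m c' = P.mu c' := (d.mu c').symm
  have md : m d' = P.mu d' := (d.mu d').symm
  have h5c : ∀ i : ZMod 5, i = 0 ∨ i = 1 ∨ i = 2 ∨ i = 3 ∨ i = 4 := by decide
  have ne : ∀ {u v : {v // S v}}, u ≠ v → (u : V) ≠ v := fun h h' => h (Subtype.ext h')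
  have hout : ∀ i, W1 G w (f i) (f (i + 1)) := by
    intro i
    rcases h5c i with rfl | rfl | rfl | rfl | rfl
    · exact hxa
    · exact hab
    · exact hbc
    · exact hcd
    · exact W1_symm hxd
  have hin : ∀ i, W1 G w (m (f i)) (m (f (i + 2))) := by
    intro i
    rcases h5c i with rfl | rfl | rfl | rfl | rfl
    · rw [f0, show (0 : ZMod 5) + 2 = 2 from rfl, f2, hmx, mb]; exact hyb
    · rw [f1, show (1 : ZMod 5) + 2 = 3 from rfl, f3, ma, mc]; exact hac
    · rw [f2, show (2 : ZMod 5) + 2 = 4 from rfl, f4, mb, md]; exact hbd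
    · rw [f3, show (3 : ZMod 5) + 2 = 0 from rfl, f0, hmx, mc]; exact W1_symm hyc
    · rw [f4, show (4 : ZMod 5) + 2 = 1 from rfl, f1, ma, md]; exact W1_symm had
  have r0 : (FG G w).Reachable x x := SimpleGraph.Reachable.refl _
  have r1 := adj _ _ hxa
  have r2 := r1.trans (adj _ _ hab)
  have r3 := r2.trans (adj _ _ hbc)
  have r4 := adj _ _ hxd
  have s0 : (FG G w).Reachable y y := SimpleGraph.Reachable.refl _
  have s2 := adj _ _ hyb
  have s3 := adj _ _ hyc
  have s4 := s2.trans (adj _ _ hbd)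
  have s1 := s3.trans (adj _ _ hac).symm
  have rf : ∀ i, (FG G w).Reachable x (f i) := by
    intro i
    rcases h5c i with rfl | rfl | rfl | rfl | rfl
    exacts [r0, r1, r2, r3, r4]
  have sf : ∀ i, (FG G w).Reachable y (m (f i)) := by
    intro i
    rcases h5c i with rfl | rfl | rfl | rfl | rfl
    · rw [f0, hmx]
    · rw [f1, ma]; exact s1
    · rw [f2, mb]; exact s2
    · rw [f3, mc]; exact s3
    · rw [f4, md]; exact s4
  refine isP10_of_map hw d.hm f ?_ ?_ ?_ hout hin
  · have hnx : ∀ u : {v // S v}, x ≠ u := fun u => (d.ne_x u).symm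
    have hnx' : ∀ u : {v // S v}, (u : V) ≠ x := fun u => d.ne_x u
    intro i j hij
    rcases h5c i with rfl | rfl | rfl | rfl | rfl <;>
    rcases h5c j with rfl | rfl | rfl | rfl | rfl <;>
    first
      | rfl
      | exact absurd hij (hnx _)
      | exact absurd hij (hnx' _)
      | exact absurd hij (ne nab)
      | exact absurd hij (ne nac)
      | exact absurd hij (ne nad)
      | exact absurd hij (ne nbc)
      | exact absurd hij (ne nbd)
      | exact absurd hij (ne ncd)
      | exact absurd hij.symm (ne nab)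
      | exact absurd hij.symm (ne nac)
      | exact absurd hij.symm (ne nad)
      | exact absurd hij.symm (ne nbc)
      | exact absurd hij.symm (ne nbd)
      | exact absurd hij.symm (ne ncd)
  · intro i j h
    apply hr
    have := sf j
    rw [← h] at this
    exact (rf i).trans this.symm
  · intro v
    by_cases hvx : v = x
    · exact ⟨0, Or.inl hvx⟩
    by_cases hvy : v = y
    · exact ⟨0, Or.inr (by rw [f0, hmx, hvy])⟩
    have hv : S v := (d.hS v).2 ⟨hvx, hvy⟩
    rcases hall ⟨v, hv⟩ with h | h | h | h | h | h | h | h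
    · exact ⟨1, Or.inl (congrArg Subtype.val h)⟩
    · exact ⟨2, Or.inl (congrArg Subtype.val h)⟩
    · exact ⟨3, Or.inl (congrArg Subtype.val h)⟩
    · exact ⟨4, Or.inl (congrArg Subtype.val h)⟩
    · exact ⟨1, Or.inr (by rw [f1, ma]; exact congrArg Subtype.val h)⟩
    · exact ⟨2, Or.inr (by rw [f2, mb]; exact congrArg Subtype.val h)⟩
    · exact ⟨3, Or.inr (by rw [f3, mc]; exact congrArg Subtype.val h)⟩
    · exact ⟨4, Or.inr (by rw [f4, md]; exact congrArg Subtype.val h)⟩

/-- **The graph side.** If the abstract statement holds, then so does the theorem on graphs. -/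
theorem graph_side
    (abstr : ∀ (E : Type u) [Fintype E] (P : Pair E), P.Crit → P.Conn → P.Cuts → P.IsP10)
    (hh : Hyp G w x y) (hcc : CycConn4 G) (hcon : ¬ FaithfulCover G w) {n : ℕ}
    {C : Fin n → G.Subgraph} (hc : Cov G w x y C) : IsP10 G w := by
  obtain ⟨m, c, hm, hcol, hr⟩ := exists_col hh hc hcon
  obtain ⟨P, d⟩ := exists_pair hm hcol (show W2 G w x y from ⟨hh.adj, hh.two⟩)
  have h3 := cuts_of_dict hcc hh.weight d hr
  exact isP10_of_dict hh.weight d h3 hr (abstr _ P (crit_of_dict hh d) (conn_of_dict hh d) h3)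

end Pool.Agent.H34CP.Gr
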