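import Pool.Agent.H34CP.Gr.Final
import Pool.Agent.H91.CP.Conv
import Pool.Agent.H21.CK.R1

/-!
# The theorem on abstract pairs, and the theorem on graphs
-/

namespace Pool.Agent.H34CP.Gr

open Pool.Agent.H66.GD Pool.Agent.H21.PT

universe u

/-- **The theorem on abstract pairs.** -/
theorem abstr (E : Type u) [Fintype E] (P : Pair E) (h1 : P.Crit) (h2 : P.Conn) (h3 : P.Cuts) :
    P.IsP10 :=
  H91CP.conv (fun _ _ Q hC hNB hP => H21CK.seq_main Q hC hNB
    { digon := hP.digon, tri := hP.tri, cut_b := hP.cut_b, cut_a := hP.cut_a }) E P h1 h2 h3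

variable {V : Type u} [Fintype V] {G : SimpleGraph V} {w : Sym2 V → ℕ}

/-- **The theorem on graphs.** -/
theorem one_edge_cover (hG : Cubic G) (hb : Bridgeless G) (hcc : CycConn4 G) (hw : IsWeight G w)
    (hno : ¬ ∃ C : G.Subgraph, Removable G w C) {e : Sym2 V} (he : e ∈ G.edgeSet) (h2 : w e = 2)
    (hcov : CoverMinus G w e) : IsP10 G w :=
  final (fun E _ P => abstr E P) hG hb hcc hw hno he h2 hcov

end Pool.Agent.H34CP.Gr
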