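import Pool.Agent.H66.GD.Rem

/-!
# Covers of `G - e` in pairs without removable circuit are chains (MP_472c72_co, class K)
-/

namespace Pool.Agent.H34CP.Gr

open Pool.Agent.H66.GD Finset
open scoped Classical

universe u
variable {V : Type u} [Fintype V] {G : SimpleGraph V} {w : Sym2 V → ℕ} {x y : V} {n : ℕ}
  {C : Fin n → G.Subgraph}

/-- A faithful cover of `G - xy`. -/
structure Cov (G : SimpleGraph V) (w : Sym2 V → ℕ) (x y : V) {n : ℕ} (C : Fin n → G.Subgraph) :
    Prop where
  circ : ∀ i, IsCircuit (C i)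
  count : ∀ e ∈ G.edgeSet, {i | e ∈ (C i).edgeSet}.ncard = if e = s(x, y) then 0 else w e

/-- The standing hypotheses. -/
structure Hyp (G : SimpleGraph V) (w : Sym2 V → ℕ) (x y : V) : Prop where
  cubic : Cubic G
  weight : IsWeight G w
  bridgeless : Bridgeless G
  adj : G.Adj x y
  two : w s(x, y) = 2
  hno : ∀ C : G.Subgraph, ¬ Removable G w C

theorem isCycles_of_circuit {C : G.Subgraph} (hC : IsCircuit C) : C.spanningCoe.IsCycles := by
  rintro v ⟨u, hu⟩
  have h1 : C.Adj v u := hu
  exact hC.2 v h1.fst_mem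

theorem circuit_reach {H : SimpleGraph V} {C : G.Subgraph} (hC : IsCircuit C)
    (h : ∀ u v, C.Adj u v → H.Adj u v) {u v : V} (hu : u ∈ C.verts) (hv : v ∈ C.verts) :
    H.Reachable u v := by
  have h1 : C.coe.Reachable ⟨u, hu⟩ ⟨v, hv⟩ := by
    have := hC.1.coe
    exact this.preconnected _ _
  have f : C.coe →g H := ⟨Subtype.val, fun {a b} hab => h _ _ hab⟩
  have h2 := h1.map (⟨Subtype.val, fun {a b} hab => h _ _ hab⟩ : C.coe →g H)
  exact h2

theorem Cov.not_mem (hc : Cov G w x y C) (hxy : G.Adj x y) (i : Fin n) :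
    s(x, y) ∉ (C i).edgeSet := by
  intro h
  have h1 := hc.count s(x, y) hxy
  rw [if_pos rfl, Set.ncard_eq_zero] at h1
  have : i ∈ {i | s(x, y) ∈ (C i).edgeSet} := h
  rw [h1] at this
  exact this

theorem Cov.count' (hc : Cov G w x y C) {e : Sym2 V} (he : e ∈ G.edgeSet) (hne : e ≠ s(x, y)) :
    {i | e ∈ (C i).edgeSet}.ncard = w e := by
  rw [hc.count e he, if_neg hne]

theorem Cov.ex (hc : Cov G w x y C) (hw : IsWeight G w) {e : Sym2 V} (he : e ∈ G.edgeSet)
    (hne : e ≠ s(x, y)) : ∃ i, e ∈ (C i).edgeSet := by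
  have h1 := hc.count' he hne
  have h2 : 0 < {i | e ∈ (C i).edgeSet}.ncard := by
    rcases hw.1 e he with h | h <;> omega
  obtain ⟨i, hi⟩ := (Set.ncard_pos).1 h2
  exact ⟨i, hi⟩

/-- Every member separates `x` from `y`. -/
theorem cut (hh : Hyp G w x y) (hc : Cov G w x y C) (i : Fin n) :
    ∃ A : Set V, x ∈ A ∧ y ∉ A ∧ ∀ j, j ≠ i → ∀ u ∈ (C j).verts, ∀ v ∈ (C j).verts,
      u ∈ A → v ∈ A := by
  have h1 : ¬ Bridgeless (pos G (less w (C i))) := fun h =>
    hh.hno (C i) ⟨hc.circ i, h, less_eulerian hh.weight (hc.circ i)⟩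
  unfold Bridgeless at h1
  push Not at h1
  obtain ⟨e, he, hbr⟩ := h1
  have hpos : ∀ j, j ≠ i → ∀ f ∈ (C j).edgeSet, f ∈ (pos G (less w (C i))).edgeSet := by
    intro j hj f hf
    have hfG : f ∈ G.edgeSet := (C j).edgeSet_subset hf
    have hfne : f ≠ s(x, y) := by
      rintro rfl
      exact hc.not_mem hh.adj j hf
    have h2 := hc.count' hfG hfne
    have h3 : 0 < less w (C i) f := by
      unfold less
      split_ifs with h4
      · have h5 : ({i, j} : Set (Fin n)) ⊆ {i | f ∈ (C i).edgeSet} := by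
          rintro k (rfl | rfl)
          · exact h4
          · exact hf
        have h6 := Set.ncard_le_ncard h5 (Set.toFinite _)
        rw [Set.ncard_pair hj.symm] at h6
        omega
      · rcases hh.weight.1 f hfG with h | h <;> omega
    induction f using Sym2.ind with
    | _ a b => exact ⟨hfG, h3⟩
  -- the bridge is `xy`
  have hexy : e = s(x, y) := by
    by_contra hne
    have heG : e ∈ G.edgeSet := by
      induction e using Sym2.ind with
      | _ a b => exact he.1
    have hless : 0 < less w (C i) e := by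
      induction e using Sym2.ind with
      | _ a b => exact he.2
    have h2 : ∃ j, j ≠ i ∧ e ∈ (C j).edgeSet := by
      by_contra hcon
      push Not at hcon
      have h3 : {j | e ∈ (C j).edgeSet} ⊆ {i} := by
        intro j hj
        by_contra hji
        exact hcon j hji hj
      have h4 := Set.ncard_le_ncard h3 (Set.toFinite _)
      rw [hc.count' heG hne, Set.ncard_singleton] at h4
      have h5 : w e = 1 := by
        rcases hh.weight.1 e heG with h | h <;> omega
      obtain ⟨j, hj⟩ := hc.ex hh.weight heG hne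
      have hji := h3 hj
      rw [Set.mem_singleton_iff] at hji
      subst hji
      unfold less at hless
      rw [if_pos hj] at hless
      omega
    obtain ⟨j, hj, hej⟩ := h2
    induction e using Sym2.ind with
    | _ a b =>
      rw [SimpleGraph.isBridge_iff] at hbr
      apply hbr
      have h3 := (isCycles_of_circuit (hc.circ j)).reachable_deleteEdges
        (show (C j).spanningCoe.Adj a b from hej)
      refine h3.mono ?_
      intro u v huv
      rw [SimpleGraph.deleteEdges_adj] at huv ⊢
      exact ⟨hpos j hj s(u, v) huv.1, huv.2⟩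
  subst hexy
  rw [SimpleGraph.isBridge_iff] at hbr
  refine ⟨{v | ((pos G (less w (C i))).deleteEdges {s(x, y)}).Reachable x v},
    SimpleGraph.Reachable.refl _, hbr, ?_⟩
  intro j hj u hu v hv hxu
  refine SimpleGraph.Reachable.trans hxu (circuit_reach (hc.circ j) ?_ hu hv)
  intro a b hab
  rw [SimpleGraph.deleteEdges_adj]
  refine ⟨hpos j hj s(a, b) hab, ?_⟩
  intro h
  rw [Set.mem_singleton_iff] at h
  exact hc.not_mem hh.adj j (h ▸ (show s(a, b) ∈ (C j).edgeSet from hab))

/-- The intersection graph of the members. -/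
def HG (C : Fin n → G.Subgraph) : SimpleGraph (Fin n) where
  Adj i j := i ≠ j ∧ ∃ v, v ∈ (C i).verts ∧ v ∈ (C j).verts
  symm := ⟨fun _ _ h => ⟨h.1.symm, h.2.imp fun _ h => ⟨h.2, h.1⟩⟩⟩
  loopless := ⟨fun _ h => h.1 rfl⟩

theorem exists_other (hG : Cubic G) (x y : V) : ∃ z, G.Adj x z ∧ z ≠ y := by
  by_contra hc
  push Not at hc
  have h1 : G.neighborSet x ⊆ {y} := fun z hz => hc z hz
  have h2 := Set.ncard_le_ncard h1 (Set.toFinite _)
  rw [hG x, Set.ncard_singleton] at h2
  omega

theorem exists_walk (hh : Hyp G w x y) (hc : Cov G w x y C) :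
    ∃ i j, x ∈ (C i).verts ∧ y ∈ (C j).verts ∧ (HG C).Reachable i j := by
  obtain ⟨z, hz, hzy⟩ := exists_other hh.cubic x y
  have hne : s(x, z) ≠ s(x, y) := by
    intro h
    rcases Sym2.eq_iff.1 h with h1 | h1
    · exact hzy h1.2
    · exact hh.adj.ne h1.1
  obtain ⟨i, hi⟩ := hc.ex hh.weight (show s(x, z) ∈ G.edgeSet from hz) hne
  have hxi : x ∈ (C i).verts := SimpleGraph.Subgraph.Adj.fst_mem (show (C i).Adj x z from hi)
  have h1 := hh.bridgeless s(x, y) hh.adj
  rw [SimpleGraph.isBridge_iff, not_not] at h1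
  have key : ∀ v, (G.deleteEdges {s(x, y)}).Reachable x v →
      ∃ j, v ∈ (C j).verts ∧ (HG C).Reachable i j := by
    intro v hv
    rw [SimpleGraph.reachable_iff_reflTransGen] at hv
    induction hv with
    | refl => exact ⟨i, hxi, SimpleGraph.Reachable.refl _⟩
    | tail _ hab ih =>
      obtain ⟨j, hj, hij⟩ := ih
      rename_i a b _
      rw [SimpleGraph.deleteEdges_adj] at hab
      obtain ⟨k, hk⟩ := hc.ex hh.weight (show s(a, b) ∈ G.edgeSet from hab.1) hab.2
      have hk' : (C k).Adj a b := hk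
      refine ⟨k, hk'.snd_mem, ?_⟩
      by_cases hjk : j = k
      · rw [← hjk]; exact hij
      · exact hij.trans (SimpleGraph.Adj.reachable ⟨hjk, a, hj, hk'.fst_mem⟩)
  obtain ⟨j, hj, hij⟩ := key y h1
  exact ⟨i, j, hxi, hj, hij⟩

/-- The members form a chain from `x` to `y`. -/
theorem exists_rank (hh : Hyp G w x y) (hc : Cov G w x y C) :
    ∃ (D : Fin n → ℕ) (r : ℕ), (∀ i j v, i ≠ j → v ∈ (C i).verts → v ∈ (C j).verts →
      D i = D j + 1 ∨ D j = D i + 1) ∧ Function.Injective D ∧ (∀ i, x ∈ (C i).verts → D i = 0) ∧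
      ∀ i, y ∈ (C i).verts → D i = r := by
  have hex : ∃ m, ∃ i j, x ∈ (C i).verts ∧ y ∈ (C j).verts ∧
      ∃ p : (HG C).Walk i j, p.length = m := by
    obtain ⟨i, j, h1, h2, ⟨p⟩⟩ := exists_walk hh hc
    exact ⟨p.length, i, j, h1, h2, p, rfl⟩
  obtain ⟨i0, j0, hx0, hy0, p, hp⟩ := Nat.find_spec hex
  set r := Nat.find hex with hr
  have hmin : ∀ i j, x ∈ (C i).verts → y ∈ (C j).verts → ∀ q : (HG C).Walk i j, r ≤ q.length :=
    fun i j hi hj q => Nat.find_min' hex ⟨i, j, hi, hj, q, rfl⟩
  -- all members are on the walk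
  have hall : ∀ i, i ∈ p.support := by
    intro i
    by_contra hi
    obtain ⟨A, hxA, hyA, hA⟩ := cut hh hc i
    have key : ∀ (a b : Fin n) (q : (HG C).Walk a b), i ∉ q.support →
        (∀ v ∈ (C a).verts, v ∈ A) → ∀ v ∈ (C b).verts, v ∈ A := by
      intro a b q
      induction q with
      | nil => exact fun _ h => h
      | cons h q ih =>
        rename_i a b c
        intro hi ha
        rw [SimpleGraph.Walk.support_cons, List.mem_cons, not_or] at hi
        apply ih hi.2
        intro v hv
        obtain ⟨-, z, hz1, hz2⟩ := h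
        have hbi : b ≠ i := by
          rintro rfl
          exact hi.2 q.start_mem_support
        exact hA b hbi z hz2 v hv (ha z hz1)
    apply hyA
    apply key _ _ p hi _ y hy0
    intro v hv
    have h0i : i0 ≠ i := by
      rintro rfl
      exact hi p.start_mem_support
    exact hA i0 h0i x hx0 v hv hxA
  set D : Fin n → ℕ := fun i => (p.takeUntil i (hall i)).length with hD
  have hlen : ∀ i, (p.takeUntil i (hall i)).length + (p.dropUntil i (hall i)).length = r := by
    intro i
    rw [← hp, ← SimpleGraph.Walk.length_append, SimpleGraph.Walk.take_spec]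
  have hget : ∀ i, p.getVert (D i) = i := fun i =>
    SimpleGraph.Walk.getVert_length_takeUntil (hall i)
  have hinj : Function.Injective D := by
    intro i j hij
    rw [← hget i, ← hget j, hij]
  refine ⟨D, r, ?_, hinj, ?_, ?_⟩
  · intro i j v hij hvi hvj
    have hadj : (HG C).Adj i j := ⟨hij, v, hvi, hvj⟩
    have h1 := hmin i0 j0 hx0 hy0
      ((p.takeUntil i (hall i)).append (SimpleGraph.Walk.cons hadj (p.dropUntil j (hall j))))
    have h2 := hmin i0 j0 hx0 hy0
      ((p.takeUntil j (hall j)).append (SimpleGraph.Walk.cons hadj.symm (p.dropUntil i (hall i))))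
    rw [SimpleGraph.Walk.length_append, SimpleGraph.Walk.length_cons] at h1 h2
    have h3 := hlen i
    have h4 := hlen j
    have h5 : D i ≠ D j := fun h => hij (hinj h)
    simp only [hD] at h5 ⊢
    omega
  · intro i hi
    have h1 := hmin i j0 hi hy0 (p.dropUntil i (hall i))
    have h2 := hlen i
    simp only [hD]
    omega
  · intro i hi
    have h1 := hmin i0 i hx0 hi (p.takeUntil i (hall i))
    have h2 := hlen i
    simp only [hD]
    omega

end Pool.Agent.H34CP.Gr
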