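import Pool.Agent.H66.GD.Rem
import Pool.Agent.H21.PT.GDefs

/-!
# Components which are circuits, and covers from two 2-regular subgraphs
-/

namespace Pool.Agent.H34CP.Gr

open Pool.Agent.H66.GD Pool.Agent.H21.PT Finset
open scoped Classical

universe u
variable {V : Type u} [Fintype V] {G : SimpleGraph V} {w : Sym2 V → ℕ}

/-- The component of `r` in `H` as a subgraph of `G`. -/
def comp {G H : SimpleGraph V} (hle : H ≤ G) (r : V) : G.Subgraph where
  verts := {v | H.Reachable r v}
  Adj u v := H.Adj u v ∧ H.Reachable r u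
  adj_sub h := hle h.1
  edge_vert h := h.2
  symm := ⟨fun _ _ h => ⟨h.1.symm, h.2.trans h.1.reachable⟩⟩

omit [Fintype V] in
theorem comp_circuit {G H : SimpleGraph V} (hle : H ≤ G) (r : V)
    (hdeg : ∀ v, H.Reachable r v → (H.neighborSet v).ncard = 2) : IsCircuit (comp hle r) := by
  constructor
  · rw [SimpleGraph.Subgraph.connected_iff']
    have key : ∀ v (hv : H.Reachable r v),
        (comp hle r).coe.Reachable ⟨r, SimpleGraph.Reachable.refl _⟩ ⟨v, hv⟩ := by
      intro v hv
      have hv' := hv
      rw [SimpleGraph.reachable_iff_reflTransGen] at hv'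
      induction hv' with
      | refl => exact SimpleGraph.Reachable.refl _
      | tail hb hbc ih =>
        have hb' := (SimpleGraph.reachable_iff_reflTransGen _ _).2 hb
        refine (ih hb').trans (SimpleGraph.Adj.reachable ?_)
        exact ⟨hbc, hb'⟩
    rw [SimpleGraph.connected_iff]
    refine ⟨fun a b => ?_, ⟨⟨r, SimpleGraph.Reachable.refl _⟩⟩⟩
    exact (key a.1 a.2).symm.trans (key b.1 b.2)
  · intro v hv
    have h2 : (comp hle r).neighborSet v = H.neighborSet v := by
      ext z
      exact ⟨fun h => h.1, fun h => ⟨h, hv⟩⟩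
    rw [h2]
    exact hdeg v hv

omit [Fintype V] in
theorem comp_mem {G H : SimpleGraph V} (hle : H ≤ G) {r u v : V} :
    s(u, v) ∈ (comp hle r).edgeSet ↔ H.Adj u v ∧ H.Reachable r u := Iff.rfl

omit [Fintype V] in
theorem faithful_of_index {ι : Type*} [Finite ι] (C : ι → G.Subgraph)
    (h1 : ∀ i, IsCircuit (C i)) (h2 : ∀ e ∈ G.edgeSet, {i | e ∈ (C i).edgeSet}.ncard = w e) :
    FaithfulCover G w := by
  obtain ⟨n, ⟨φ⟩⟩ := Finite.exists_equiv_fin ι
  refine ⟨n, fun i => C (φ.symm i), fun i => h1 _, ?_⟩
  intro e he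
  rw [← h2 e he]
  have h3 : {i | e ∈ (C i).edgeSet} = φ.symm '' {i | e ∈ (C (φ.symm i)).edgeSet} := by
    ext i
    constructor
    · intro hi
      exact ⟨φ i, by simpa using hi, by simp⟩
    · rintro ⟨j, hj, rfl⟩
      exact hj
  rw [h3, Set.ncard_image_of_injective _ φ.symm.injective]

/-- Two 2-regular spanning subgraphs whose edges add up to `w` give a faithful cover. -/
theorem cover_of_two (H : Bool → SimpleGraph V) (hle : ∀ b, H b ≤ G)
    (hdeg : ∀ b v, ((H b).neighborSet v).ncard = 2)
    (hw : ∀ u v, G.Adj u v → {b | (H b).Adj u v}.ncard = w s(u, v)) : FaithfulCover G w := by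
  refine faithful_of_index (ι := Σ b : Bool, (H b).ConnectedComponent)
    (fun i => comp (hle i.1) i.2.exists_rep.choose) (fun i => comp_circuit _ _ fun v _ => hdeg _ v) ?_
  intro e he
  induction e using Sym2.ind with
  | _ u v =>
    rw [← hw u v he]
    have h3 : {i : Σ b : Bool, (H b).ConnectedComponent |
        s(u, v) ∈ (comp (hle i.1) i.2.exists_rep.choose).edgeSet} =
        (fun b => ⟨b, (H b).connectedComponentMk u⟩ : Bool → Σ b : Bool,
          (H b).ConnectedComponent) '' {b | (H b).Adj u v} := by
      ext ⟨b, c⟩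
      simp only [Set.mem_setOf_eq, Set.mem_image]
      rw [comp_mem]
      have hrep := c.exists_rep.choose_spec
      constructor
      · rintro ⟨h1, h2⟩
        refine ⟨b, h1, ?_⟩
        have h4 : (H b).connectedComponentMk u = c := by
          rw [← hrep]
          exact (SimpleGraph.ConnectedComponent.sound h2).symm
        rw [h4]
      · rintro ⟨b', h1, h2⟩
        have hb : b' = b := congrArg Sigma.fst h2
        subst hb
        rw [Sigma.mk.injEq] at h2
        have h5 := eq_of_heq h2.2
        refine ⟨h1, ?_⟩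
        rw [← hrep] at h5
        exact SimpleGraph.ConnectedComponent.exact h5.symm
    rw [h3, Set.ncard_image_of_injective]
    intro b b' h
    exact congrArg Sigma.fst h

end Pool.Agent.H34CP.Gr
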