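import Pool.Agent.H34CP.Gr.Chain
import Pool.Agent.H34CP.Gr.Circ

/-!
# The colouring of the edges of weight one
-/

namespace Pool.Agent.H34CP.Gr

open Pool.Agent.H66.GD Pool.Agent.H21.PT Finset
open scoped Classical

universe u
variable {V : Type u} [Fintype V] {G : SimpleGraph V} {w : Sym2 V → ℕ} {x y : V} {n : ℕ}
  {C : Fin n → G.Subgraph}

/-- The graph of the edges of weight one. -/
def FG (G : SimpleGraph V) (w : Sym2 V → ℕ) : SimpleGraph V where
  Adj u v := W1 G w u v
  symm := ⟨fun _ _ h => W1_symm h⟩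
  loopless := ⟨fun v h => G.loopless.irrefl v h.1⟩

/-- All vertices are of type `(1,1,2)`; `m` is the matching. -/
structure Typ (G : SimpleGraph V) (w : Sym2 V → ℕ) (m : V → V) : Prop where
  adj : ∀ v, W2 G w v (m v)
  uniq : ∀ v u, W2 G w v u → u = m v
  two : ∀ v, ∃ a b, a ≠ b ∧ ∀ u, W1 G w v u ↔ u = a ∨ u = b

theorem Cov.card_mem (hh : Hyp G w x y) (hc : Cov G w x y C) {v u : V} (h : W2 G w v u)
    (hne : s(v, u) ≠ s(x, y)) : ∃ i j, i ≠ j ∧ s(v, u) ∈ (C i).edgeSet ∧ s(v, u) ∈ (C j).edgeSet ∧
      ∀ k, s(v, u) ∈ (C k).edgeSet → k = i ∨ k = j := by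
  have h1 := hc.count' (show s(v, u) ∈ G.edgeSet from h.1) hne
  rw [h.2, Set.ncard_eq_two] at h1
  obtain ⟨i, j, hij, h2⟩ := h1
  refine ⟨i, j, hij, ?_, ?_, ?_⟩
  · have : i ∈ ({i, j} : Set (Fin n)) := Or.inl rfl
    rw [← h2] at this; exact this
  · have : j ∈ ({i, j} : Set (Fin n)) := Or.inr rfl
    rw [← h2] at this; exact this
  · intro k hk
    have : k ∈ {i | s(v, u) ∈ (C i).edgeSet} := hk
    rw [h2] at this
    exact this

theorem Cov.one_mem (hh : Hyp G w x y) (hc : Cov G w x y C) {v u : V} (h : W1 G w v u) :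
    ∃ i, s(v, u) ∈ (C i).edgeSet ∧ ∀ k, s(v, u) ∈ (C k).edgeSet → k = i := by
  have hne : s(v, u) ≠ s(x, y) := by
    intro h1
    have h2 := h.2
    rw [h1, hh.two] at h2
    omega
  have h1 := hc.count' (show s(v, u) ∈ G.edgeSet from h.1) hne
  rw [h.2, Set.ncard_eq_one] at h1
  obtain ⟨i, h2⟩ := h1
  refine ⟨i, ?_, ?_⟩
  · have : i ∈ ({i} : Set (Fin n)) := rfl
    rw [← h2] at this; exact this
  · intro k hk
    have : k ∈ {i | s(v, u) ∈ (C i).edgeSet} := hk
    rw [h2] at this
    exact this

theorem typ_card (hh : Hyp G w x y) (hc : Cov G w x y C) (v : V) :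
    (univ.filter fun u => W1 G w v u).card = 2 ∧ (univ.filter fun u => W2 G w v u).card = 1 := by
  rcases vertex_type hh.cubic hh.weight v with h | h
  swap
  · exact h
  exfalso
  obtain ⟨D, r, h1, h2, h3, h4⟩ := exists_rank hh hc
  have hall : ∀ u, G.Adj v u → W2 G w v u := fun u hu =>
    (adj_cases hh.weight hu).resolve_left (h.1 u)
  by_cases hvx : v = x
  · subst hvx
    obtain ⟨z, hz, hzy⟩ := exists_other hh.cubic v y
    have hne : s(v, z) ≠ s(v, y) := by
      intro h
      rcases Sym2.eq_iff.1 h with h1 | h1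
      · exact hzy h1.2
      · exact hh.adj.ne h1.1
    obtain ⟨i, j, hij, hi, hj, -⟩ := hc.card_mem hh (hall z hz) hne
    apply hij
    apply h2
    rw [h3 i (SimpleGraph.Subgraph.Adj.fst_mem (show (C i).Adj v z from hi)),
      h3 j (SimpleGraph.Subgraph.Adj.fst_mem (show (C j).Adj v z from hj))]
  by_cases hvy : v = y
  · subst hvy
    obtain ⟨z, hz, hzy⟩ := exists_other hh.cubic v x
    have hne : s(v, z) ≠ s(x, v) := by
      intro h
      rcases Sym2.eq_iff.1 h with h1 | h1
      · exact hvx h1.1
      · exact hzy h1.2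
    obtain ⟨i, j, hij, hi, hj, -⟩ := hc.card_mem hh (hall z hz) hne
    apply hij
    apply h2
    rw [h4 i (SimpleGraph.Subgraph.Adj.fst_mem (show (C i).Adj v z from hi)),
      h4 j (SimpleGraph.Subgraph.Adj.fst_mem (show (C j).Adj v z from hj))]
  have hne : ∀ u, s(v, u) ≠ s(x, y) := by
    intro u h
    rcases Sym2.eq_iff.1 h with h1 | h1
    · exact hvx h1.1
    · exact hvy h1.1
  obtain ⟨u0, hu0⟩ : ∃ u, W2 G w v u := by
    have : 0 < (univ.filter fun u => W2 G w v u).card := by omega
    obtain ⟨u, hu⟩ := card_pos.1 this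
    exact ⟨u, (mem_filter.1 hu).2⟩
  obtain ⟨i, j, hij, hi, hj, -⟩ := hc.card_mem hh hu0 (hne _)
  have hvi := SimpleGraph.Subgraph.Adj.fst_mem (show (C i).Adj v u0 from hi)
  have hvj := SimpleGraph.Subgraph.Adj.fst_mem (show (C j).Adj v u0 from hj)
  have hk : ∃ k, k ≠ i ∧ k ≠ j ∧ v ∈ (C k).verts := by
    by_contra hcon
    push Not at hcon
    have h5 : (C i).neighborSet v = G.neighborSet v := by
      ext u
      constructor
      · intro h; exact (C i).adj_sub h
      · intro hu
        obtain ⟨k, l, hkl, hk, hl, -⟩ := hc.card_mem hh (hall u hu) (hne _)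
        have hvk := SimpleGraph.Subgraph.Adj.fst_mem (show (C k).Adj v u from hk)
        have hvl := SimpleGraph.Subgraph.Adj.fst_mem (show (C l).Adj v u from hl)
        by_cases hki : k = i
        · subst hki; exact hk
        by_cases hli : l = i
        · subst hli; exact hl
        exfalso
        have e1 : k = j := by
          by_contra hkj
          exact hcon k hki hkj hvk
        have e2 : l = j := by
          by_contra hlj
          exact hcon l hli hlj hvl
        exact hkl (e1.trans e2.symm)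
    have h6 := (hc.circ i).2 v hvi
    rw [h5, hh.cubic v] at h6
    omega
  obtain ⟨k, hki, hkj, hvk⟩ := hk
  have a1 := h1 i j v hij hvi hvj
  have a2 := h1 k i v hki hvk hvi
  have a3 := h1 k j v hkj hvk hvj
  omega

theorem exists_typ (hh : Hyp G w x y) (hc : Cov G w x y C) : ∃ m, Typ G w m := by
  have h1 : ∀ v, ∃ u, ∀ z, W2 G w v z ↔ z = u := by
    intro v
    obtain ⟨u, hu⟩ := card_eq_one.1 (typ_card hh hc v).2
    refine ⟨u, fun z => ?_⟩
    rw [← mem_singleton, ← hu, mem_filter]
    simp
  choose m hm using h1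
  refine ⟨m, fun v => (hm v _).2 rfl, fun v u h => (hm v u).1 h, ?_⟩
  intro v
  obtain ⟨a, b, hab, h⟩ := card_eq_two.1 (typ_card hh hc v).1
  refine ⟨a, b, hab, fun z => ?_⟩
  have : z ∈ (univ.filter fun u => W1 G w v u) ↔ z = a ∨ z = b := by
    rw [h, mem_insert, mem_singleton]
  rw [← this, mem_filter]
  simp

/-- A colouring which is alternating except at `x`, `y`, where it is constant. -/
structure PreCol (G : SimpleGraph V) (w : Sym2 V → ℕ) (x y : V) (c : V → V → Prop) (s t : Prop) :
    Prop where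
  symm : ∀ u v, c u v → c v u
  mid : ∀ v, v ≠ x → v ≠ y → ∀ a b, a ≠ b → W1 G w v a → W1 G w v b → (c v a ↔ ¬ c v b)
  atx : ∀ a, W1 G w x a → (c x a ↔ s)
  aty : ∀ a, W1 G w y a → (c y a ↔ t)

theorem exists_preCol (hh : Hyp G w x y) (hc : Cov G w x y C) :
    ∃ c t, PreCol G w x y c True t := by
  obtain ⟨D, r, h1, h2, h3, h4⟩ := exists_rank hh hc
  obtain ⟨m, hm⟩ := exists_typ hh hc
  refine ⟨fun u v => ∃ i, s(u, v) ∈ (C i).edgeSet ∧ Even (D i), Even r, ?_, ?_, ?_, ?_⟩
  · rintro u v ⟨i, hi, he⟩
    exact ⟨i, by rw [Sym2.eq_swap]; exact hi, he⟩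
  · intro v hvx hvy a b hab ha hb
    have hne : ∀ u, s(v, u) ≠ s(x, y) := by
      intro u h
      rcases Sym2.eq_iff.1 h with h1 | h1
      · exact hvx h1.1
      · exact hvy h1.1
    obtain ⟨i, hi, hi'⟩ := hc.one_mem hh ha
    obtain ⟨j, hj, hj'⟩ := hc.one_mem hh hb
    have hvi := SimpleGraph.Subgraph.Adj.fst_mem (show (C i).Adj v a from hi)
    have hvj := SimpleGraph.Subgraph.Adj.fst_mem (show (C j).Adj v b from hj)
    have hij : i ≠ j := by
      rintro rfl
      -- `C i` contains both edges of weight one, and another member contains the matching edge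
      obtain ⟨k, l, hkl, hk, hl, -⟩ := hc.card_mem hh (hm.adj v) (hne _)
      have key : ∀ k, s(v, m v) ∈ (C k).edgeSet → k = i := by
        intro k hk
        have hvk := SimpleGraph.Subgraph.Adj.fst_mem (show (C k).Adj v (m v) from hk)
        have h5 := (hc.circ k).2 v hvk
        have h6 : ∃ u, u ≠ m v ∧ (C k).Adj v u := by
          by_contra hcon
          push Not at hcon
          have h7 : (C k).neighborSet v ⊆ {m v} := fun u hu => by
            by_contra h8
            exact hcon u h8 hu
          have h8 := Set.ncard_le_ncard h7 (Set.toFinite _)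
          rw [h5, Set.ncard_singleton] at h8
          omega
        obtain ⟨u, hu1, hu2⟩ := h6
        have hu3 : W1 G w v u := (adj_cases hh.weight ((C k).adj_sub hu2)).resolve_right
          fun h => hu1 (hm.uniq v u h)
        obtain ⟨a', b', hab', htwo⟩ := hm.two v
        have e1 := (htwo a).1 ha
        have e2 := (htwo b).1 hb
        have e3 := (htwo u).1 hu3
        have e4 : u = a ∨ u = b := by
          rcases e1 with rfl | rfl <;> rcases e2 with rfl | rfl <;> rcases e3 with rfl | rfl <;>
            simp_all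
        rcases e4 with rfl | rfl
        · exact hi' k hu2
        · exact hj' k hu2
      exact hkl ((key k hk).trans (key l hl).symm)
    have a1 := h1 i j v hij hvi hvj
    have e1 : (∃ k, s(v, a) ∈ (C k).edgeSet ∧ Even (D k)) ↔ Even (D i) := by
      constructor
      · rintro ⟨k, hk, he⟩
        rwa [hi' k hk] at he
      · intro he; exact ⟨i, hi, he⟩
    have e2 : (∃ k, s(v, b) ∈ (C k).edgeSet ∧ Even (D k)) ↔ Even (D j) := by
      constructor
      · rintro ⟨k, hk, he⟩
        rwa [hj' k hk] at he
      · intro he; exact ⟨j, hj, he⟩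
    rw [e1, e2, Nat.even_iff, Nat.even_iff]
    omega
  · intro a ha
    obtain ⟨i, hi, hi'⟩ := hc.one_mem hh ha
    have hvi := SimpleGraph.Subgraph.Adj.fst_mem (show (C i).Adj x a from hi)
    refine ⟨fun _ => trivial, fun _ => ⟨i, hi, ?_⟩⟩
    rw [h3 i hvi]
    exact Even.zero
  · intro a ha
    obtain ⟨i, hi, hi'⟩ := hc.one_mem hh ha
    have hvi := SimpleGraph.Subgraph.Adj.fst_mem (show (C i).Adj y a from hi)
    constructor
    · rintro ⟨k, hk, he⟩
      rw [hi' k hk, h4 i hvi] at he
      exact he
    · intro he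
      refine ⟨i, hi, ?_⟩
      rw [h4 i hvi]
      exact he

/-- A proper colouring of the edges of weight one gives a faithful cover. -/
theorem cover_of_proper {m : V → V} (hw : IsWeight G w) (hm : Typ G w m) (c : V → V → Prop)
    (hs : ∀ u v, c u v → c v u)
    (hc : ∀ v a b, a ≠ b → W1 G w v a → W1 G w v b → (c v a ↔ ¬ c v b)) : FaithfulCover G w := by
  have hs' : ∀ u v, c u v ↔ c v u := fun u v => ⟨hs u v, hs v u⟩
  let H : Bool → SimpleGraph V := fun b =>
    { Adj := fun u v => (W1 G w u v ∧ (c u v ↔ b = true)) ∨ W2 G w u v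
      symm := ⟨by
        rintro u v (⟨h1, h2⟩ | h)
        · exact Or.inl ⟨W1_symm h1, (hs' v u).trans h2⟩
        · exact Or.inr (W2_symm h)⟩
      loopless := ⟨by
        rintro u (⟨h1, h2⟩ | h)
        · exact G.loopless.irrefl u h1.1
        · exact G.loopless.irrefl u h.1⟩ }
  have hadj : ∀ b u v, (H b).Adj u v ↔ (W1 G w u v ∧ (c u v ↔ b = true)) ∨ W2 G w u v :=
    fun _ _ _ => Iff.rfl
  refine cover_of_two H ?_ ?_ ?_
  · rintro b u v (h | h)
    · exact h.1.1
    · exact h.1
  · intro b v
    obtain ⟨p, q, hpq, h2⟩ := hm.two v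
    have hp := (h2 p).2 (Or.inl rfl)
    have hq := (h2 q).2 (Or.inr rfl)
    have h3 := hc v p q hpq hp hq
    have key : ∃ z, z ≠ m v ∧ (H b).neighborSet v = {z, m v} := by
      have hz : ∃ z, W1 G w v z ∧ (c v z ↔ b = true) ∧ ∀ z', W1 G w v z' →
          (c v z' ↔ b = true) → z' = z := by
        by_cases h4 : (c v p ↔ b = true)
        · refine ⟨p, hp, h4, fun z' h5 h6 => ?_⟩
          rcases (h2 z').1 h5 with rfl | rfl
          · rfl
          · exfalso
            rcases b <;> simp_all
        · refine ⟨q, hq, ?_, fun z' h5 h6 => ?_⟩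
          · rcases b <;> simp_all
          · rcases (h2 z').1 h5 with rfl | rfl
            · exact absurd h6 h4
            · rfl
      obtain ⟨z, hz1, hz2, hz3⟩ := hz
      refine ⟨z, ?_, ?_⟩
      · rintro rfl
        exact W12 hz1 (hm.adj v)
      · ext u
        rw [SimpleGraph.mem_neighborSet, hadj]
        constructor
        · rintro (h | h)
          · exact Or.inl (hz3 u h.1 h.2)
          · exact Or.inr (hm.uniq v u h)
        · rintro (rfl | rfl)
          · exact Or.inl ⟨hz1, hz2⟩
          · exact Or.inr (hm.adj v)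
    obtain ⟨z, hz, h4⟩ := key
    rw [h4, Set.ncard_pair hz]
  · intro u v huv
    rcases adj_cases hw huv with h | h
    · rw [h.2, Set.ncard_eq_one]
      refine ⟨decide (c u v), ?_⟩
      ext b
      simp only [Set.mem_singleton_iff]
      constructor
      · rintro (h5 | h5)
        · rcases b with _ | _
          · have : ¬ c u v := by simpa using h5.2
            simp [this]
          · have : c u v := by simpa using h5.2
            simp [this]
        · exact absurd h5 fun h6 => W12 h h6
      · rintro rfl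
        exact Or.inl ⟨h, by simp⟩
    · rw [h.2, Set.ncard_eq_two]
      refine ⟨true, false, by simp, ?_⟩
      ext b
      constructor
      · intro _; rcases b <;> simp
      · intro _; exact Or.inr h

/-- If `x` and `y` are joined by edges of weight one, then there is a proper colouring. -/
theorem proper_of_reach {m : V → V} (hm : Typ G w m) {c : V → V → Prop} {s t : Prop}
    (hc : PreCol G w x y c s t) (hxy : x ≠ y) (hr : (FG G w).Reachable x y) :
    ∃ c' : V → V → Prop, (∀ u v, c' u v → c' v u) ∧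
      ∀ v a b, a ≠ b → W1 G w v a → W1 G w v b → (c' v a ↔ ¬ c' v b) := by
  obtain ⟨p, hp⟩ := hr.exists_isPath
  refine ⟨fun u v => ¬ (c u v ↔ s(u, v) ∈ p.edges), ?_, ?_⟩
  · intro u v h h'
    apply h
    rw [Sym2.eq_swap]
    exact ⟨fun h1 => h'.1 (hc.symm _ _ h1), fun h1 => hc.symm _ _ (h'.2 h1)⟩
  · intro v a b hab ha hb
    have h1 := hp.isTrail.even_countP_edges_iff v
    have h2 : p.edges.countP (fun e => decide (v ∈ e)) =
        (({s(v, a), s(v, b)} : Finset (Sym2 V)).filter fun e => e ∈ p.edges).card := by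
      rw [List.countP_eq_length_filter, ← List.toFinset_card_of_nodup
        (hp.isTrail.edges_nodup.filter _)]
      congr 1
      ext e
      rw [List.mem_toFinset, List.mem_filter, mem_filter, mem_insert, mem_singleton]
      constructor
      · rintro ⟨h3, h4⟩
        refine ⟨?_, h3⟩
        have h5 : v ∈ e := by simpa using h4
        obtain ⟨z, rfl⟩ := Sym2.mem_iff_exists.1 h5
        have h6 : W1 G w v z := p.adj_of_mem_edges h3
        obtain ⟨a', b', hab', htwo⟩ := hm.two v
        have e1 := (htwo a).1 ha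
        have e2 := (htwo b).1 hb
        have e3 := (htwo z).1 h6
        have e4 : z = a ∨ z = b := by
          rcases e1 with rfl | rfl <;> rcases e2 with rfl | rfl <;> rcases e3 with rfl | rfl <;>
            simp_all
        rcases e4 with rfl | rfl
        · exact Or.inl rfl
        · exact Or.inr rfl
      · rintro ⟨h3, h4⟩
        refine ⟨h4, ?_⟩
        rcases h3 with rfl | rfl <;> simp
    have hne : s(v, a) ≠ s(v, b) := by
      intro h
      rcases Sym2.eq_iff.1 h with h | h
      · exact hab h.2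
      · exact hab (h.2.trans h.1)
    have h3 : Even (p.edges.countP fun e => decide (v ∈ e)) ↔
        (s(v, a) ∈ p.edges ↔ s(v, b) ∈ p.edges) := by
      rw [h2, filter_insert, filter_singleton]
      by_cases i1 : s(v, a) ∈ p.edges <;> by_cases i2 : s(v, b) ∈ p.edges
      · rw [if_pos i1, if_pos i2, card_pair hne]
        simp [i1, i2]
      · rw [if_pos i1, if_neg i2]
        simp [i1, i2]
      · rw [if_neg i1, if_pos i2]
        simp [i1, i2]
      · rw [if_neg i1, if_neg i2]
        simp [i1, i2]
    have h4 : (s(v, a) ∈ p.edges ↔ s(v, b) ∈ p.edges) ↔ (v ≠ x ∧ v ≠ y) := by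
      rw [← h3]
      have h5 : Even (p.edges.countP fun e => decide (v ∈ e)) ↔ (x ≠ y → v ≠ x ∧ v ≠ y) := by
        convert h1
      rw [h5]
      exact ⟨fun h => h hxy, fun h _ => h⟩
    by_cases hvx : v = x
    · subst hvx
      have e1 := hc.atx a ha
      have e2 := hc.atx b hb
      have h5 : ¬ (s(v, a) ∈ p.edges ↔ s(v, b) ∈ p.edges) := fun h => (h4.1 h).1 rfl
      tauto
    · by_cases hvy : v = y
      · subst hvy
        have e1 := hc.aty a ha
        have e2 := hc.aty b hb
        have h5 : ¬ (s(v, a) ∈ p.edges ↔ s(v, b) ∈ p.edges) := fun h => (h4.1 h).2 rfl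
        tauto
      · have e1 := hc.mid v hvx hvy a b hab ha hb
        have h5 := h4.2 ⟨hvx, hvy⟩
        tauto

/-- **The colouring.** -/
theorem exists_col (hh : Hyp G w x y) (hc : Cov G w x y C) (hcon : ¬ FaithfulCover G w) :
    ∃ (m : V → V) (c : V → V → Prop), Typ G w m ∧ PreCol G w x y c True False ∧
      ¬ (FG G w).Reachable x y := by
  obtain ⟨m, hm⟩ := exists_typ hh hc
  obtain ⟨c, t, hcol⟩ := exists_preCol hh hc
  have hr : ¬ (FG G w).Reachable x y := by
    intro h
    obtain ⟨c', h1, h2⟩ := proper_of_reach hm hcol hh.adj.ne h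
    exact hcon (cover_of_proper hh.weight hm c' h1 h2)
  by_cases ht : t
  · refine ⟨m, fun u v => ¬ (c u v ↔ (FG G w).Reachable y u ∧ (FG G w).Reachable y v), hm, ?_, hr⟩
    have hadj : ∀ u v, W1 G w u v → ((FG G w).Reachable y u ↔ (FG G w).Reachable y v) := by
      intro u v h
      have : (FG G w).Adj u v := h
      exact ⟨fun h1 => h1.trans this.reachable, fun h1 => h1.trans this.symm.reachable⟩
    refine ⟨?_, ?_, ?_, ?_⟩
    · intro u v h h'
      apply h
      constructor
      · intro h1
        exact (h'.1 (hcol.symm _ _ h1)).symm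
      · intro h1
        exact hcol.symm _ _ (h'.2 h1.symm)
    · intro v hvx hvy a b hab ha hb
      have e1 := hcol.mid v hvx hvy a b hab ha hb
      have e2 := hadj v a ha
      have e3 := hadj v b hb
      tauto
    · intro a ha
      have e1 := hcol.atx a ha
      have e2 : ¬ (FG G w).Reachable y x := fun h => hr h.symm
      tauto
    · intro a ha
      have e1 := hcol.aty a ha
      have e2 : (FG G w).Reachable y y := SimpleGraph.Reachable.refl _
      have e3 := hadj y a ha
      tauto
  · refine ⟨m, c, hm, ⟨hcol.symm, hcol.mid, hcol.atx, fun a ha => ?_⟩, hr⟩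
    exact ⟨fun h => ht ((hcol.aty a ha).1 h), False.elim⟩

end Pool.Agent.H34CP.Gr
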