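import Pool.Agent.H34CP.Gr.Defs
import Pool.Agent.H66.GD.Basic

/-!
# Critical pairs with coloured `F` are chains
-/

namespace Pool.Agent.H34CP.Gr

open Finset
open scoped Classical

universe u
variable {E : Type u}

namespace Pair

/-- `e` is not a bridge. -/
def Conn (P : Pair E) : Prop := ∀ T : E → Prop, (∀ v, T v → T (P.mu v)) →
  (∀ v, T v → T (P.al v)) → (∀ v, T v → T (P.be v)) → T P.p0 → T P.q0

theorem alt_swap {P : Pair E} {za zb : E → Prop} (h : P.swap.Alt za zb) : P.Alt zb za where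
  a_inv := h.b_inv
  b_inv := h.a_inv
  p0 := h.q0
  q0 := h.p0
  disj v h1 h2 := h.disj v h2 h1
  mu_inv v h1 := (h.mu_inv v h1.symm).symm
  ne := h.ne.imp fun _ h => h.symm

theorem bridge_swap {P : Pair E} {za zb : E → Prop} (h : P.Bridge zb za) :
    P.swap.Bridge za zb := by
  obtain ⟨Y, h1, h2, h3⟩ := h
  rcases h3 with ⟨k, k1, k2, k3, k4, k5, k6⟩ | ⟨k1, k2, k3⟩
  · exact ⟨Y, h2, h1, Or.inl ⟨k, k2, k1, k3, k4, k5, k6.symm⟩⟩
  · refine ⟨fun v => ¬ Y v, fun v hv => not_congr (h2 v hv), fun v hv => not_congr (h1 v hv),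
      Or.inr ⟨fun v => not_congr (k1 v), k3, not_not.2 k2⟩⟩

theorem crit_swap {P : Pair E} (h : P.Crit) : P.swap.Crit :=
  fun _ _ hA => bridge_swap (h _ _ (alt_swap hA))

theorem conn_swap {P : Pair E} (h : P.Conn) : P.swap.Conn := by
  intro T h1 h2 h3 h4
  by_contra hc
  refine h (fun v => ¬ T v) ?_ ?_ ?_ hc h4
  · intro v hv h5
    exact hv (by have := h1 _ h5; rwa [show P.swap.mu = P.mu from rfl, P.mu_mu] at this)
  · intro v hv h5
    exact hv (by have := h3 _ h5; rwa [show P.swap.be = P.al from rfl, P.al_al] at this)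
  · intro v hv h5
    exact hv (by have := h2 _ h5; rwa [show P.swap.al = P.be from rfl, P.be_be] at this)

/-- The graph whose components are the `mu`-`al`-circuits. -/
def GA (P : Pair E) : SimpleGraph E where
  Adj u v := v = P.mu u ∨ v = P.al u
  symm := ⟨by
    rintro u v (rfl | rfl)
    · exact Or.inl (P.mu_mu u).symm
    · exact Or.inr (P.al_al u).symm⟩
  loopless := ⟨by
    rintro u (h | h)
    · exact P.mu_ne u h.symm
    · exact P.al_ne u h.symm⟩

/-- The `mu`-`al`-circuits. -/
abbrev CA (P : Pair E) := P.GA.ConnectedComponent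

/-- The circuit of `v`. -/
def cl (P : Pair E) (v : E) : P.CA := P.GA.connectedComponentMk v

theorem cl_mu (P : Pair E) (v : E) : P.cl (P.mu v) = P.cl v :=
  SimpleGraph.ConnectedComponent.sound
    (SimpleGraph.Adj.reachable (show P.GA.Adj (P.mu v) v from Or.inl (P.mu_mu v).symm))

theorem cl_al (P : Pair E) (v : E) : P.cl (P.al v) = P.cl v :=
  SimpleGraph.ConnectedComponent.sound
    (SimpleGraph.Adj.reachable (show P.GA.Adj (P.al v) v from Or.inr (P.al_al v).symm))

theorem cl_ind (P : Pair E) {T : E → Prop} (h1 : ∀ v, T v → T (P.mu v))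
    (h2 : ∀ v, T v → T (P.al v)) {u v : E} (h : P.cl u = P.cl v) (hu : T u) : T v := by
  have h3 : P.GA.Reachable u v := SimpleGraph.ConnectedComponent.exact h
  rw [SimpleGraph.reachable_iff_reflTransGen] at h3
  induction h3 with
  | refl => exact hu
  | tail hab hbc ih =>
    have ih' := ih (SimpleGraph.ConnectedComponent.sound
      ((SimpleGraph.reachable_iff_reflTransGen _ _).2 hab))
    rcases hbc with rfl | rfl
    · exact h1 _ ih'
    · exact h2 _ ih'

/-- A `mu`-`al`-circuit which does not pass `x` separates `x` from `y`. -/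
theorem cutA [Fintype E] {P : Pair E} (hP : P.Crit) {c : P.CA} (hc : c ≠ P.cl P.p0) :
    ∃ Y : E → Prop, (∀ v, Y v ↔ Y (P.mu v)) ∧ (∀ v, P.cl v ≠ c → (Y v ↔ Y (P.al v))) ∧
      (∀ v, Y v ↔ Y (P.be v)) ∧ Y P.p0 ∧ ¬ Y P.q0 := by
  have hA : P.Alt (fun v => P.cl v = c) (fun _ => False) := by
    refine ⟨fun v hv => by rw [P.cl_al, hv], fun v hv => hv, fun h => hc h.symm, fun h => h,
      fun _ _ h => h, ?_, ?_⟩
    · rintro v (h | h)
      · left; rw [P.cl_mu, h]
      · exact h.elim
    · obtain ⟨v, hv⟩ := c.exists_rep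
      exact ⟨v, Or.inl hv⟩
  obtain ⟨Y, h1, h2, h3⟩ := hP _ _ hA
  rcases h3 with ⟨k, k1, k2, k3, k4, k5, k6⟩ | ⟨k1, k2, k3⟩
  · exfalso
    set S : Finset E := univ.filter fun v => P.cl v ≠ c ∧ Y v with hS
    have e1 : Even S.card := by
      refine Pool.Agent.H66.GD.even_card_of_inv P.al_al P.al_ne S ?_
      intro s hs
      rw [hS, mem_filter] at hs ⊢
      exact ⟨mem_univ _, by rw [P.cl_al]; exact hs.2.1, (h1 s hs.2.1).1 hs.2.2⟩
    have e2 : Even (S.erase k).card := by
      refine Pool.Agent.H66.GD.even_card_of_inv P.mu_mu P.mu_ne _ ?_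
      intro s hs
      rw [mem_erase, hS, mem_filter] at hs ⊢
      obtain ⟨g1, g2, g3, g4⟩ := hs
      have g5 : s ≠ P.mu k := by
        rintro rfl
        exact k4 g4
      refine ⟨?_, mem_univ _, by rw [P.cl_mu]; exact g3, (k5 s g1 g5).1 g4⟩
      intro h
      apply g5
      rw [← h, P.mu_mu]
    have e3 : k ∈ S := by
      rw [hS, mem_filter]
      exact ⟨mem_univ _, k1, k3⟩
    have e4 := card_erase_add_one e3
    rw [← e4] at e1
    rw [Nat.even_add_one] at e1
    exact e1 e2
  · exact ⟨Y, k1, h1, fun v => h2 v (fun h => h), k2, k3⟩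

/-- All members. -/
abbrev Mem (P : Pair E) := P.CA ⊕ P.swap.CA

/-- `u` lies in the member. -/
def inn (P : Pair E) (u : E) : P.Mem → Prop
  | Sum.inl c => P.cl u = c
  | Sum.inr c => P.swap.cl u = c

/-- Two members are adjacent if they share an end. -/
def MG (P : Pair E) : SimpleGraph P.Mem where
  Adj i j := i ≠ j ∧ ∃ v, P.inn v i ∧ P.inn v j
  symm := ⟨fun _ _ h => ⟨h.1.symm, h.2.imp fun _ h => ⟨h.2, h.1⟩⟩⟩
  loopless := ⟨fun _ h => h.1 rfl⟩

/-- the member `mu`-`al`-circuit through `v` -/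
def ia (P : Pair E) (v : E) : P.Mem := Sum.inl (P.cl v)

/-- the member `mu`-`be`-circuit through `v` -/
def ib (P : Pair E) (v : E) : P.Mem := Sum.inr (P.swap.cl v)

theorem adj_ab (P : Pair E) (v : E) : P.MG.Adj (P.ia v) (P.ib v) :=
  ⟨by simp [ia, ib], v, rfl, rfl⟩

theorem cut_mem [Fintype E] {P : Pair E} (hP : P.Crit) (i : P.Mem) (h1 : i ≠ P.ia P.p0)
    (h2 : i ≠ P.ib P.q0) : ∃ Y : E → Prop, Y P.p0 ∧ ¬ Y P.q0 ∧
      ∀ j, j ≠ i → ∀ u v, P.inn u j → P.inn v j → Y u → Y v := by
  rcases i with c | c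
  · obtain ⟨Y, a1, a2, a3, a4, a5⟩ := cutA hP (c := c) (fun h => h1 (by rw [h]; rfl))
    refine ⟨Y, a4, a5, ?_⟩
    rintro (j | j) hj u v hu hv hY
    · have hu' : P.cl u = j := hu
      have hv' : P.cl v = j := hv
      have hj' : j ≠ c := fun h => hj (by rw [h])
      refine (P.cl_ind (T := fun z => P.cl z = j ∧ Y z) ?_ ?_ (hu'.trans hv'.symm) ⟨hu, hY⟩).2
      · rintro z ⟨b1, b2⟩
        exact ⟨by rw [P.cl_mu, b1], (a1 z).1 b2⟩
      · rintro z ⟨b1, b2⟩
        exact ⟨by rw [P.cl_al, b1], (a2 z (by rw [b1]; exact hj')).1 b2⟩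
    · have hu' : P.swap.cl u = j := hu
      have hv' : P.swap.cl v = j := hv
      exact P.swap.cl_ind (T := Y) (fun z b => (a1 z).1 b) (fun z b => (a3 z).1 b)
        (hu'.trans hv'.symm) hY
  · obtain ⟨Y, a1, a2, a3, a4, a5⟩ := cutA (crit_swap hP) (c := c) (fun h => h2 (by rw [h]; rfl))
    refine ⟨fun z => ¬ Y z, a5, not_not.2 a4, ?_⟩
    rintro (j | j) hj u v hu hv hY
    · have hu' : P.cl u = j := hu
      have hv' : P.cl v = j := hv
      exact P.cl_ind (T := fun z => ¬ Y z) (fun z b => fun h => b ((a1 z).2 h))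
        (fun z b => fun h => b ((a3 z).2 h)) (hu'.trans hv'.symm) hY
    · have hu' : P.swap.cl u = j := hu
      have hv' : P.swap.cl v = j := hv
      have hj' : j ≠ c := fun h => hj (by rw [h])
      refine (P.swap.cl_ind (T := fun z => P.swap.cl z = j ∧ ¬ Y z) ?_ ?_
        (hu'.trans hv'.symm) ⟨hu, hY⟩).2
      · rintro z ⟨b1, b2⟩
        exact ⟨by rw [P.swap.cl_mu, b1], fun h => b2 ((a1 z).2 h)⟩
      · rintro z ⟨b1, b2⟩
        exact ⟨by rw [P.swap.cl_al, b1], fun h => b2 ((a2 z (by rw [b1]; exact hj')).2 h)⟩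

theorem exists_walk (P : Pair E) (hc : P.Conn) : P.MG.Reachable (P.ia P.p0) (P.ib P.q0) := by
  have h1 : P.MG.Reachable (P.ia P.p0) (P.ia P.q0) := by
    refine hc (fun v => P.MG.Reachable (P.ia P.p0) (P.ia v)) ?_ ?_ ?_ (SimpleGraph.Reachable.refl _)
    · intro v hv
      have : P.ia (P.mu v) = P.ia v := by unfold ia; rw [P.cl_mu]
      rw [this]; exact hv
    · intro v hv
      have : P.ia (P.al v) = P.ia v := by unfold ia; rw [P.cl_al]
      rw [this]; exact hv
    · intro v hv
      have : P.ib (P.be v) = P.ib v := by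
        unfold ib; rw [show P.be = P.swap.al from rfl, P.swap.cl_al]
      have h2 := (P.adj_ab (P.be v)).reachable
      rw [this] at h2
      exact (hv.trans (P.adj_ab v).reachable).trans h2.symm
  exact h1.trans (P.adj_ab P.q0).reachable

/-- **The members form a chain.** -/
theorem exists_chain [Fintype E] (P : Pair E) (hP : P.Crit) (hc : P.Conn) :
    ∃ (ra rb : E → ℕ) (r : ℕ), Odd r ∧ P.Chain ra rb r := by
  have hex : ∃ m, ∃ p : P.MG.Walk (P.ia P.p0) (P.ib P.q0), p.length = m := by
    obtain ⟨p⟩ := P.exists_walk hc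
    exact ⟨p.length, p, rfl⟩
  obtain ⟨p, hp⟩ := Nat.find_spec hex
  set r := Nat.find hex with hr
  have hmin : ∀ q : P.MG.Walk (P.ia P.p0) (P.ib P.q0), r ≤ q.length :=
    fun q => Nat.find_min' hex ⟨q, rfl⟩
  have hall : ∀ i, i ∈ p.support := by
    intro i
    by_contra hi
    have h1 : i ≠ P.ia P.p0 := fun h => hi (by rw [h]; exact p.start_mem_support)
    have h2 : i ≠ P.ib P.q0 := fun h => hi (by rw [h]; exact p.end_mem_support)
    obtain ⟨Y, y1, y2, hY⟩ := cut_mem hP i h1 h2
    have key : ∀ (a b : P.Mem) (q : P.MG.Walk a b), i ∉ q.support →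
        (∀ v, P.inn v a → Y v) → ∀ v, P.inn v b → Y v := by
      intro a b q
      induction q with
      | nil => exact fun _ h => h
      | cons h q ih =>
        rename_i a b c
        intro hi ha
        rw [SimpleGraph.Walk.support_cons, List.mem_cons, not_or] at hi
        apply ih hi.2
        intro v hv
        obtain ⟨-, z, hz1, hz2⟩ := h
        have hbi : b ≠ i := by
          rintro rfl
          exact hi.2 q.start_mem_support
        exact hY b hbi z v hz2 hv (ha z hz1)
    apply y2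
    apply key _ _ p hi _ P.q0 rfl
    intro v hv
    exact hY _ h1.symm P.p0 v rfl hv y1
  set D : P.Mem → ℕ := fun i => (p.takeUntil i (hall i)).length with hD
  have hlen : ∀ i, (p.takeUntil i (hall i)).length + (p.dropUntil i (hall i)).length = r := by
    intro i
    rw [← hp, ← SimpleGraph.Walk.length_append, SimpleGraph.Walk.take_spec]
  have hget : ∀ i, p.getVert (D i) = i := fun i =>
    SimpleGraph.Walk.getVert_length_takeUntil (hall i)
  have hinj : Function.Injective D := by
    intro i j hij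
    rw [← hget i, ← hget j, hij]
  have hstep : ∀ i j, P.MG.Adj i j → D i = D j + 1 ∨ D j = D i + 1 := by
    intro i j hadj
    have h1 := hmin
      ((p.takeUntil i (hall i)).append (SimpleGraph.Walk.cons hadj (p.dropUntil j (hall j))))
    have h2 := hmin
      ((p.takeUntil j (hall j)).append (SimpleGraph.Walk.cons hadj.symm (p.dropUntil i (hall i))))
    rw [SimpleGraph.Walk.length_append, SimpleGraph.Walk.length_cons] at h1 h2
    have h3 := hlen i
    have h4 := hlen j
    have h5 : D i ≠ D j := fun h => hadj.ne (hinj h)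
    simp only [hD] at h5 ⊢
    omega
  have hch : P.Chain (fun v => D (P.ia v)) (fun v => D (P.ib v)) r := by
    refine ⟨?_, ?_, ?_, ?_, ?_, ?_, ?_, ?_, ?_⟩
    · intro v; simp only [ia, P.cl_mu]
    · intro v; simp only [ia, P.cl_al]
    · intro v
      have : P.ib (P.mu v) = P.ib v := by
        unfold ib; rw [show P.mu = P.swap.mu from rfl, P.swap.cl_mu]
      simp only [this]
    · intro v
      have : P.ib (P.be v) = P.ib v := by
        unfold ib; rw [show P.be = P.swap.al from rfl, P.swap.cl_al]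
      simp only [this]
    · intro v; exact hstep _ _ (P.adj_ab v)
    · have h1 := hmin (p.dropUntil _ (hall (P.ia P.p0)))
      have h2 := hlen (P.ia P.p0)
      simp only [hD]
      omega
    · have h1 := hmin (p.takeUntil _ (hall (P.ib P.q0)))
      have h2 := hlen (P.ib P.q0)
      simp only [hD]
      omega
    · intro T h1 h2 u v huv hu
      have h3 := hinj huv
      simp only [ia, Sum.inl.injEq] at h3
      exact P.cl_ind h1 h2 h3 hu
    · intro T h1 h2 u v huv hu
      have h3 := hinj huv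
      simp only [ib, Sum.inr.injEq] at h3
      exact P.swap.cl_ind h1 h2 h3 hu
  refine ⟨_, _, r, ?_, hch⟩
  have h1 : Even (D (P.ia P.q0)) := by
    refine hc (fun v => Even (D (P.ia v))) ?_ ?_ ?_ ?_
    · intro v hv
      have := hch.a_mu v
      rw [this]; exact hv
    · intro v hv
      have := hch.a_al v
      rw [this]; exact hv
    · intro v hv
      have h2 := hch.step v
      have h3 := hch.step (P.be v)
      have h4 := hch.b_be v
      rw [Nat.even_iff] at hv ⊢
      omega
    · have := hch.p0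
      rw [this]
      exact Even.zero
  have h2 := hch.step P.q0
  have h3 := hch.q0
  rw [Nat.even_iff] at h1
  rw [Nat.odd_iff]
  omega

end Pair

end Pool.Agent.H34CP.Gr
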