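import Pool.Agent.H34CP.Gr.Chain
import Pool.Agent.H66.GD.Rem

/-!
# The two sides of the bridge left by a circuit
-/

namespace Pool.Agent.H34CP.Gr

open Pool.Agent.H66.GD Finset
open scoped Classical

universe u
variable {V : Type u} [Fintype V] {G : SimpleGraph V} {w : Sym2 V → ℕ} {x y : V}

/-- An even graph does not have exactly one edge across. -/
theorem cross_parity (R : V → V → Prop) (hs : ∀ u v, R u v → R v u) (hi : ∀ v, ¬ R v v)
    (he : ∀ v, Even (univ.filter fun u => R v u).card) (A : V → Prop) {a b : V} (ha : A a)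
    (hb : ¬ A b) (hab : R a b) (hu : ∀ u v, R u v → A u → ¬ A v → u = a ∧ v = b) : False := by
  set S : Finset V := univ.filter A with hS
  have h1 : Even (ct R S univ) := by
    unfold ct
    refine Finset.even_sum _ fun v _ => ?_
    rw [← card_filter]
    exact he v
  have h2 : (univ : Finset V) = S ∪ univ.filter fun v => ¬ A v := by
    ext v
    simp only [hS, mem_univ, mem_union, mem_filter, true_and, true_iff]
    exact em _
  have h3 : Disjoint S (univ.filter fun v => ¬ A v) := by
    rw [Finset.disjoint_left]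
    intro v hv hv'
    rw [hS, mem_filter] at hv
    rw [mem_filter] at hv'
    exact hv'.2 hv.2
  rw [h2, ct_union_right _ h3, Nat.even_add] at h1
  have h4 := ct_even hs hi S
  have h5 : ct R S (univ.filter fun v => ¬ A v) = 1 := by
    rw [ct_eq_card, card_eq_one]
    refine ⟨(a, b), ?_⟩
    ext ⟨u, v⟩
    rw [mem_filter, mem_product, mem_singleton, hS, mem_filter, mem_filter]
    constructor
    · rintro ⟨⟨h6, h7⟩, h8⟩
      obtain ⟨rfl, rfl⟩ := hu u v h8 h6.2 h7.2
      rfl
    · intro h
      rw [Prod.mk.injEq] at h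
      obtain ⟨rfl, rfl⟩ := h
      exact ⟨⟨⟨mem_univ _, ha⟩, mem_univ _, hb⟩, hab⟩
  have h6 := h1.1 h4
  rw [h5] at h6
  exact absurd h6 (by decide)

/-- Since `K` is not removable, there is a cut `A` of `pos G (less w K)` which consists of one
edge `ab`, and this edge has weight two and does not lie in `K`. -/
theorem bridge_side (hw : IsWeight G w) (hno : ∀ C : G.Subgraph, ¬ Removable G w C)
    {K : G.Subgraph} (hK : IsCircuit K) :
    ∃ (A : V → Prop) (a b : V), A a ∧ ¬ A b ∧ W2 G w a b ∧ s(a, b) ∉ K.edgeSet ∧
      (∀ u v, W1 G w u v → s(u, v) ∉ K.edgeSet → (A u ↔ A v)) ∧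
      (∀ u v, W2 G w u v → s(u, v) ≠ s(a, b) → (A u ↔ A v)) ∧
      ∀ K' : G.Subgraph, IsCircuit K' → (∀ e ∈ K'.edgeSet, e ∉ K.edgeSet) →
        s(a, b) ∉ K'.edgeSet := by
  have h1 : ¬ Bridgeless (pos G (less w K)) := fun h =>
    hno K ⟨hK, h, less_eulerian hw hK⟩
  unfold Bridgeless at h1
  push Not at h1
  obtain ⟨e, he, hbr⟩ := h1
  induction e using Sym2.ind with
  | _ a b =>
    rw [SimpleGraph.isBridge_iff] at hbr
    have hG : G.Adj a b := he.1
    have hl : 0 < less w K s(a, b) := he.2
    set A : V → Prop := fun v => ((pos G (less w K)).deleteEdges {s(a, b)}).Reachable a v with hA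
    have haa : A a := SimpleGraph.Reachable.refl _
    have hnb : ¬ A b := hbr
    have hcr : ∀ u v, (pos G (less w K)).Adj u v → s(u, v) ≠ s(a, b) → (A u ↔ A v) := by
      intro u v huv hne
      have h2 : ((pos G (less w K)).deleteEdges {s(a, b)}).Adj u v := by
        rw [SimpleGraph.deleteEdges_adj]
        exact ⟨huv, hne⟩
      exact ⟨fun h => h.trans h2.reachable, fun h => h.trans h2.symm.reachable⟩
    have heven : Even (less w K s(a, b)) := by
      by_contra hodd
      rw [Nat.not_even_iff_odd] at hodd
      refine cross_parity (fun u v => (pos G (less w K)).Adj u v ∧ Odd (less w K s(u, v)))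
        ?_ ?_ ?_ A haa hnb ⟨he, hodd⟩ ?_
      · rintro u v ⟨h2, h3⟩
        exact ⟨h2.symm, by rw [Sym2.eq_swap]; exact h3⟩
      · rintro v ⟨h2, -⟩
        exact (pos G (less w K)).loopless.irrefl v h2
      · intro v
        have h2 := less_eulerian hw hK v
        have h3 : {u | (pos G (less w K)).Adj v u ∧ Odd (less w K s(v, u))} =
            ((univ.filter fun u => (pos G (less w K)).Adj v u ∧ Odd (less w K s(v, u)) :
              Finset V) : Set V) := by
          ext u; simp
        rw [h3, Set.ncard_coe_finset] at h2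
        convert h2
      · rintro u v ⟨h2, h3⟩ h4 h5
        by_cases h6 : s(u, v) = s(a, b)
        · rcases Sym2.eq_iff.1 h6 with h7 | h7
          · exact h7
          · exfalso
            rw [h7.1] at h4
            exact hnb h4
        · exact absurd ((hcr u v h2 h6).1 h4) h5
    have hle : less w K s(a, b) ≤ w s(a, b) := Nat.sub_le _ _
    have hwe := hw.1 s(a, b) hG
    have h2 : less w K s(a, b) = 2 := by
      obtain ⟨k, hk⟩ := heven
      omega
    have h3 : s(a, b) ∉ K.edgeSet := by
      intro h
      unfold less at h2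
      rw [if_pos h] at h2
      omega
    have h4 : w s(a, b) = 2 := by omega
    have hpos1 : ∀ u v, W1 G w u v → s(u, v) ∉ K.edgeSet → (pos G (less w K)).Adj u v := by
      intro u v h5 h6
      refine ⟨h5.1, ?_⟩
      unfold less
      rw [if_neg h6, h5.2]
      omega
    have hpos2 : ∀ u v, W2 G w u v → (pos G (less w K)).Adj u v := by
      intro u v h5
      refine ⟨h5.1, ?_⟩
      unfold less
      rw [h5.2]
      split_ifs <;> omega
    refine ⟨A, a, b, haa, hnb, ⟨hG, h4⟩, h3, ?_, ?_, ?_⟩
    · intro u v h5 h6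
      refine hcr u v (hpos1 u v h5 h6) ?_
      intro h7
      have := h5.2
      rw [h7, h4] at this
      omega
    · intro u v h5 h6
      exact hcr u v (hpos2 u v h5) h6
    · intro K' hK' hdis hmem
      apply hbr
      have h5 := (isCycles_of_circuit hK').reachable_deleteEdges
        (show K'.spanningCoe.Adj a b from hmem)
      refine h5.mono ?_
      intro u v huv
      rw [SimpleGraph.deleteEdges_adj] at huv ⊢
      refine ⟨?_, huv.2⟩
      have h6 : s(u, v) ∈ K'.edgeSet := huv.1
      have h7 : G.Adj u v := K'.adj_sub h6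
      rcases adj_cases hw h7 with h8 | h8
      · exact hpos1 u v h8 (hdis _ h6)
      · exact hpos2 u v h8

end Pool.Agent.H34CP.Gr
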