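import Pool.Agent.H34CP.Gr.Obj
import Pool.Agent.H34CP.Gr.Side
import Pool.Agent.H34CP.Gr.Rank

/-!
# The abstract pair is critical and connected
-/

namespace Pool.Agent.H34CP.Gr

open Pool.Agent.H66.GD Pool.Agent.H21.PT Finset
open scoped Classical

universe u
variable {V : Type u} [Fintype V] {G : SimpleGraph V} {w : Sym2 V → ℕ} {x y : V}
  {m : V → V} {c : V → V → Prop} {S : V → Prop} {P : Pair {v // S v}}

namespace Dict

omit [Fintype V] in
theorem ne_x (d : Dict G w x y m c S P) (v : {v // S v}) : (v : V) ≠ x := ((d.hS v).1 v.2).1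

omit [Fintype V] in
theorem ne_y (d : Dict G w x y m c S P) (v : {v // S v}) : (v : V) ≠ y := ((d.hS v).1 v.2).2

theorem al_p0 (d : Dict G w x y m c S P) : W1 G w x (P.al P.p0) := by
  rcases (d.al P.p0 (P.al P.p0)).2 rfl with ⟨h1, h2⟩ | ⟨-, h, -⟩
  · exfalso
    have h3 := d.hc.mid P.p0 (d.ne_x _) (d.ne_y _) x (P.al P.p0) (d.ne_x _).symm
      (W1_symm d.p0) h1
    exact h3.1 (d.hc.symm _ _ ((d.hc.atx _ d.p0).2 trivial)) h2
  · exact h

theorem x_nbr (d : Dict G w x y m c S P) (v : {v // S v}) :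
    W1 G w x v ↔ v = P.p0 ∨ v = P.al P.p0 := by
  constructor
  · intro h
    by_cases h1 : v = P.p0
    · exact Or.inl h1
    · right
      rw [← d.al]
      exact Or.inr ⟨d.p0, h, fun h2 => h1 (Subtype.ext h2)⟩
  · rintro (rfl | rfl)
    · exact d.p0
    · exact d.al_p0

theorem direct (d : Dict G w x y m c S P) {v : {v // S v}} (h1 : v ≠ P.p0)
    (h2 : v ≠ P.al P.p0) : W1 G w v (P.al v) ∧ c v (P.al v) := by
  rcases (d.al v (P.al v)).2 rfl with h | ⟨h, -, -⟩
  · exact h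
  · rcases (d.x_nbr v).1 h with h | h
    · exact absurd h h1
    · exact absurd h h2

omit [Fintype V] in
theorem w2 (d : Dict G w x y m c S P) (v : {v // S v}) : W2 G w v (P.mu v) := by
  rw [d.mu]; exact d.hm.adj v

omit [Fintype V] in
theorem w2_uniq (d : Dict G w x y m c S P) {v u : {v // S v}} (h : W2 G w v u) :
    u = P.mu v := Subtype.ext (by rw [d.mu]; exact d.hm.uniq _ _ h)

theorem w2_mem (d : Dict G w x y m c S P) {v u : V} (h : W2 G w v u) (hv : S v) : S u := by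
  rw [d.hS] at hv ⊢
  constructor
  · rintro rfl
    exact hv.2 ((d.hm.uniq _ _ (W2_symm h)).trans (d.hm.uniq _ _ d.hxy).symm)
  · rintro rfl
    exact hv.1 ((d.hm.uniq _ _ (W2_symm h)).trans (d.hm.uniq _ _ (W2_symm d.hxy)).symm)

end Dict

/-- A property of the ends as a property of the vertices. -/
def up (S : V → Prop) (z : {v // S v} → Prop) (v : V) : Prop := ∃ h : S v, z ⟨v, h⟩

/-- The graph of an alternating set. -/
def HD (G : SimpleGraph V) (w : Sym2 V → ℕ) (c : V → V → Prop) (hs : ∀ u v, c u v → c v u)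
    (A B : V → Prop) : SimpleGraph V where
  Adj u v := (W1 G w u v ∧ c u v ∧ A u ∧ A v) ∨ (W1 G w u v ∧ ¬ c u v ∧ B u ∧ B v) ∨
    (W2 G w u v ∧ (A u ∨ B u) ∧ (A v ∨ B v))
  symm := ⟨by
    rintro u v (⟨h1, h2, h3, h4⟩ | ⟨h1, h2, h3, h4⟩ | ⟨h1, h2, h3⟩)
    · exact Or.inl ⟨W1_symm h1, hs _ _ h2, h4, h3⟩
    · exact Or.inr (Or.inl ⟨W1_symm h1, fun h => h2 (hs _ _ h), h4, h3⟩)
    · exact Or.inr (Or.inr ⟨W2_symm h1, h3, h2⟩)⟩
  loopless := ⟨by
    rintro u (⟨h1, -⟩ | ⟨h1, -⟩ | ⟨h1, -⟩) <;> exact G.loopless.irrefl u h1.1⟩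

theorem HD_swap (hs : ∀ u v, c u v → c v u) (hs' : ∀ u v, ¬ c u v → ¬ c v u) (A B : V → Prop) :
    HD G w (fun a b => ¬ c a b) hs' B A = HD G w c hs A B := by
  ext u v
  show (W1 G w u v ∧ ¬ c u v ∧ B u ∧ B v) ∨ (W1 G w u v ∧ ¬ ¬ c u v ∧ A u ∧ A v) ∨
    (W2 G w u v ∧ (B u ∨ A u) ∧ (B v ∨ A v)) ↔ (W1 G w u v ∧ c u v ∧ A u ∧ A v) ∨
    (W1 G w u v ∧ ¬ c u v ∧ B u ∧ B v) ∨ (W2 G w u v ∧ (A u ∨ B u) ∧ (A v ∨ B v))
  tauto

theorem HD_le (hs : ∀ u v, c u v → c v u) (A B : V → Prop) : HD G w c hs A B ≤ G := by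
  rintro u v (⟨h1, -⟩ | ⟨h1, -⟩ | ⟨h1, -⟩) <;> exact h1.1

theorem HD_deg_a (d : Dict G w x y m c S P) {za zb : {v // S v} → Prop} (hA : P.Alt za zb)
    {v : V} (hv : up S za v) :
    ((HD G w c d.hc.symm (up S za) (up S zb)).neighborSet v).ncard = 2 := by
  obtain ⟨hSv, hv⟩ := hv
  set a : {v // S v} := ⟨v, hSv⟩ with ha
  have h1 : a ≠ P.p0 := by
    intro h
    rw [h] at hv
    exact hA.p0 hv
  have h2 : a ≠ P.al P.p0 := by
    intro h
    rw [h] at hv
    have := hA.a_inv _ hv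
    rw [P.al_al] at this
    exact hA.p0 this
  obtain ⟨h3, h4⟩ := d.direct h1 h2
  have h5 := d.w2 a
  have h6 : (HD G w c d.hc.symm (up S za) (up S zb)).neighborSet v =
      {(P.al a : V), (P.mu a : V)} := by
    ext u
    rw [SimpleGraph.mem_neighborSet]
    constructor
    · rintro (⟨g1, g2, g3, g4, g5⟩ | ⟨g1, g2, ⟨g3, g4⟩, g5⟩ | ⟨g1, g2, g3⟩)
      · left
        have := (d.al a ⟨u, g4⟩).1 (Or.inl ⟨g1, g2⟩)
        rw [← this]
      · exact absurd g4 (hA.disj _ hv)
      · right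
        have hu : S u := d.w2_mem g1 hSv
        have := d.w2_uniq (v := a) (u := ⟨u, hu⟩) g1
        show u = _
        rw [← this]
    · rintro (h | h)
      · rw [h]
        exact Or.inl ⟨h3, h4, ⟨hSv, hv⟩, ⟨(P.al a).2, hA.a_inv _ hv⟩⟩
      · have h' : u = (P.mu a : V) := h
        rw [h']
        refine Or.inr (Or.inr ⟨h5, Or.inl ⟨hSv, hv⟩, ?_⟩)
        rcases hA.mu_inv a (Or.inl hv) with h7 | h7
        · exact Or.inl ⟨_, h7⟩
        · exact Or.inr ⟨_, h7⟩
  rw [h6, Set.ncard_pair]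
  intro h
  rw [h] at h3
  exact W12 h3 h5

theorem HD_deg (d : Dict G w x y m c S P) {za zb : {v // S v} → Prop} (hA : P.Alt za zb)
    {v : V} (hv : up S za v ∨ up S zb v) :
    ((HD G w c d.hc.symm (up S za) (up S zb)).neighborSet v).ncard = 2 := by
  rcases hv with hv | hv
  · exact HD_deg_a d hA hv
  · have h1 := HD_deg_a d.swap (za := zb) (zb := za) (by
      exact { a_inv := hA.b_inv, b_inv := hA.a_inv, p0 := hA.q0, q0 := hA.p0,
              disj := fun v h1 h2 => hA.disj v h2 h1,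
              mu_inv := fun v h => (hA.mu_inv v h.symm).symm,
              ne := hA.ne.imp fun _ h => h.symm }) hv
    rw [HD_swap d.hc.symm] at h1
    exact h1

theorem HD_mem {hs : ∀ u v, c u v → c v u} {A B : V → Prop} {u v : V}
    (h : (HD G w c hs A B).Adj u v) : A u ∨ B u := by
  rcases h with ⟨_, _, h, _⟩ | ⟨_, _, h, _⟩ | ⟨_, h, _⟩
  · exact Or.inl h
  · exact Or.inr h
  · exact h

theorem HD_reach {hs : ∀ u v, c u v → c v u} {A B : V → Prop} {r v : V}
    (h : (HD G w c hs A B).Reachable r v) (hr : A r ∨ B r) : A v ∨ B v := by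
  rw [SimpleGraph.reachable_iff_reflTransGen] at h
  rcases Relation.ReflTransGen.cases_tail h with rfl | ⟨b, -, h1⟩
  · exact hr
  · exact HD_mem h1.symm

/-- The edges of weight one not in `D` (for `al`). -/
theorem side_al (d : Dict G w x y m c S P) {za zb : {v // S v} → Prop} {A : V → Prop}
    {K : G.Subgraph} (hK : ∀ u v, s(u, v) ∈ K.edgeSet →
      (HD G w c d.hc.symm (up S za) (up S zb)).Adj u v)
    (h1 : ∀ u v, W1 G w u v → s(u, v) ∉ K.edgeSet → (A u ↔ A v)) (v : {v // S v})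
    (hv : ¬ za v) : A v ↔ A (P.al v) := by
  rcases (d.al v (P.al v)).2 rfl with ⟨h2, h3⟩ | ⟨h2, h3, h4⟩
  · refine h1 _ _ h2 fun h => ?_
    rcases hK _ _ h with ⟨_, _, ⟨_, g⟩, _⟩ | ⟨_, g, _⟩ | ⟨g, _⟩
    · exact hv g
    · exact g h3
    · exact W12 h2 g
  · have hx : ∀ u, s(x, u) ∉ K.edgeSet := by
      intro u h
      rcases HD_mem (hK _ _ h) with ⟨g, _⟩ | ⟨g, _⟩
      · exact ((d.hS x).1 g).1 rfl
      · exact ((d.hS x).1 g).1 rfl
    exact (h1 _ _ h2 (hx _)).symm.trans (h1 _ _ h3 (hx _))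

theorem crit_of_dict (hh : Hyp G w x y) (d : Dict G w x y m c S P) : P.Crit := by
  intro za zb hA
  obtain ⟨r, hr⟩ := hA.ne
  have hr' : up S za r ∨ up S zb r := by
    rcases hr with h | h
    · exact Or.inl ⟨r.2, h⟩
    · exact Or.inr ⟨r.2, h⟩
  set H := HD G w c d.hc.symm (up S za) (up S zb) with hH
  have hdeg : ∀ r v, (up S za r ∨ up S zb r) → H.Reachable r v → (H.neighborSet v).ncard = 2 :=
    fun r v h h' => HD_deg d hA (HD_reach h' h)
  set K := comp (HD_le (G := G) (w := w) d.hc.symm (up S za) (up S zb)) (r : V) with hKdef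
  have hKc : IsCircuit K := comp_circuit _ _ fun v hv => hdeg r v hr' hv
  have hKH : ∀ u v, s(u, v) ∈ K.edgeSet → H.Adj u v := fun u v h => h.1
  obtain ⟨A, a, b, ha, hb, hab, habK, hA1, hA2, hA3⟩ := bridge_side hh.weight hh.hno hKc
  -- wlog the bridge is not `yx`
  have key : ∃ (A : V → Prop) (a b : V), A a ∧ ¬ A b ∧ W2 G w a b ∧ s(a, b) ∉ K.edgeSet ∧
      (∀ u v, W1 G w u v → s(u, v) ∉ K.edgeSet → (A u ↔ A v)) ∧
      (∀ u v, W2 G w u v → s(u, v) ≠ s(a, b) → (A u ↔ A v)) ∧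
      (∀ K' : G.Subgraph, IsCircuit K' → (∀ e ∈ K'.edgeSet, e ∉ K.edgeSet) →
        s(a, b) ∉ K'.edgeSet) ∧ ((a = x ∧ b = y) ∨ s(x, y) ≠ s(a, b)) := by
    by_cases h1 : s(x, y) = s(a, b)
    · rcases Sym2.eq_iff.1 h1 with ⟨h2, h3⟩ | ⟨h2, h3⟩
      · exact ⟨A, a, b, ha, hb, hab, habK, hA1, hA2, hA3, Or.inl ⟨h2.symm, h3.symm⟩⟩
      · refine ⟨fun v => ¬ A v, b, a, hb, not_not.2 ha, W2_symm hab, ?_, ?_, ?_, ?_,
          Or.inl ⟨h2.symm, h3.symm⟩⟩
        · rw [Sym2.eq_swap]; exact habK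
        · exact fun u v g1 g2 => not_congr (hA1 u v g1 g2)
        · intro u v g1 g2
          rw [Sym2.eq_swap (a := b)] at g2
          exact not_congr (hA2 u v g1 g2)
        · intro K' g1 g2
          rw [Sym2.eq_swap]
          exact hA3 K' g1 g2
    · exact ⟨A, a, b, ha, hb, hab, habK, hA1, hA2, hA3, Or.inr h1⟩
  clear hA3 hA2 hA1 habK hab hb ha A a b
  obtain ⟨A, a, b, ha, hb, hab, habK, hA1, hA2, hA3, hor⟩ := key
  have hx : ∀ u, s(x, u) ∉ K.edgeSet := by
    intro u h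
    rcases HD_mem (hKH _ _ h) with ⟨g, _⟩ | ⟨g, _⟩
    · exact ((d.hS x).1 g).1 rfl
    · exact ((d.hS x).1 g).1 rfl
  have hy : ∀ u, s(y, u) ∉ K.edgeSet := by
    intro u h
    rcases HD_mem (hKH _ _ h) with ⟨g, _⟩ | ⟨g, _⟩
    · exact ((d.hS y).1 g).2 rfl
    · exact ((d.hS y).1 g).2 rfl
  have hp0 := hA1 _ _ d.p0 (hx _)
  have hq0 := hA1 _ _ d.q0 (hy _)
  refine ⟨fun v => A v, fun v hv => side_al d hKH hA1 v hv, ?_, ?_⟩
  · intro v hv
    refine side_al d.swap (za := zb) (zb := za) (K := K) ?_ hA1 v hv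
    intro u v h
    rw [HD_swap d.hc.symm]
    exact hKH u v h
  · rcases hor with ⟨rfl, rfl⟩ | hne
    · right
      refine ⟨fun v => hA2 _ _ (d.w2 v) ?_, hp0.1 ha, fun h => hb (hq0.2 h)⟩
      intro h
      rcases Sym2.eq_iff.1 h with h1 | h1
      · exact d.ne_x _ h1.1
      · exact d.ne_y _ h1.1
    · left
      have haS : S a := by
        rw [d.hS]
        constructor
        · rintro rfl
          exact hne (by rw [d.hm.uniq _ _ hab, d.hm.uniq _ _ d.hxy])
        · rintro rfl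
          apply hne
          rw [d.hm.uniq _ _ hab, d.hm.uniq _ _ (W2_symm d.hxy), Sym2.eq_swap]
      have hbS : S b := d.w2_mem hab haS
      have hbm : (⟨b, hbS⟩ : {v // S v}) = P.mu ⟨a, haS⟩ := d.w2_uniq (v := ⟨a, haS⟩) hab
      have hnot : ¬ (up S za a ∨ up S zb a) := by
        intro h
        -- the component of `a` in `H`
        have h1 : IsCircuit (comp (HD_le (G := G) (w := w) d.hc.symm (up S za) (up S zb)) a) :=
          comp_circuit _ _ fun v hv => hdeg a v h hv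
        have hab' : H.Adj a b := by
          refine Or.inr (Or.inr ⟨hab, h, ?_⟩)
          have h2 : za ⟨a, haS⟩ ∨ zb ⟨a, haS⟩ := by
            rcases h with ⟨_, h⟩ | ⟨_, h⟩
            · exact Or.inl h
            · exact Or.inr h
          have h3 := hA.mu_inv _ h2
          rw [← hbm] at h3
          rcases h3 with h3 | h3
          · exact Or.inl ⟨_, h3⟩
          · exact Or.inr ⟨_, h3⟩
        refine hA3 _ h1 ?_ ⟨hab', SimpleGraph.Reachable.refl _⟩
        intro e he he'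
        induction e using Sym2.ind with
        | _ u v =>
          have g1 : H.Reachable a u := he.2
          have g2 : H.Reachable r u := he'.2
          exact habK ⟨hab', g2.trans g1.symm⟩
      refine ⟨⟨a, haS⟩, ?_, ?_, ha, ?_, ?_, ?_⟩
      · intro h; exact hnot (Or.inl ⟨_, h⟩)
      · intro h; exact hnot (Or.inr ⟨_, h⟩)
      · show ¬ A (P.mu ⟨a, haS⟩)
        rw [← hbm]
        exact hb
      · intro v hv1 hv2
        refine hA2 _ _ (d.w2 v) ?_
        intro h
        rcases Sym2.eq_iff.1 h with h1 | h1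
        · exact hv1 (Subtype.ext h1.1)
        · apply hv2
          rw [← hbm]
          exact Subtype.ext h1.1
      · exact hp0.symm.trans ((hA2 _ _ d.hxy hne).trans hq0)

theorem conn_of_dict (hh : Hyp G w x y) (d : Dict G w x y m c S P) : P.Conn := by
  intro T h1 h2 h3 h4
  have h0 := hh.bridgeless s(x, y) hh.adj
  rw [SimpleGraph.isBridge_iff, not_not, SimpleGraph.reachable_iff_reflTransGen] at h0
  have key : ∀ v, Relation.ReflTransGen (G.deleteEdges {s(x, y)}).Adj x v →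
      (v = x ∨ (v = y ∧ T P.q0) ∨ up S T v) := by
    intro v hv
    induction hv with
    | refl => exact Or.inl rfl
    | tail _ hab ih =>
      rename_i a b _
      rw [SimpleGraph.deleteEdges_adj] at hab
      have hW : ∀ q, W1 G w y q → ∀ hq : S q, T ⟨q, hq⟩ → T P.q0 := by
        intro q hq1 hq2 hq3
        rcases (d.swap.x_nbr ⟨q, hq2⟩).1 hq1 with h | h
        · rw [h] at hq3
          exact hq3
        · have := h3 _ hq3
          rw [h] at this
          rwa [show P.be (P.swap.al P.swap.p0) = P.q0 from P.be_be P.q0] at this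
      have hW' : T P.q0 → ∀ q, W1 G w y q → ∀ hq : S q, T ⟨q, hq⟩ := by
        intro hT q hq1 hq2
        rcases (d.swap.x_nbr ⟨q, hq2⟩).1 hq1 with h | h
        · rw [h]; exact hT
        · rw [h]; exact h3 _ hT
      have hX : ∀ q, W1 G w x q → ∀ hq : S q, T ⟨q, hq⟩ := by
        intro q hq1 hq2
        rcases (d.x_nbr ⟨q, hq2⟩).1 hq1 with h | h
        · rw [h]; exact h4
        · rw [h]; exact h2 _ h4
      by_cases hbx : b = x
      · exact Or.inl hbx
      right
      rcases ih with rfl | ⟨rfl, hT⟩ | ⟨haS, hT⟩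
      · -- from `x`
        have hbS : S b := by
          rw [d.hS]
          refine ⟨hbx, ?_⟩
          rintro rfl
          exact hab.2 rfl
        rcases adj_cases hh.weight hab.1 with h | h
        · exact Or.inr ⟨hbS, hX b h hbS⟩
        · exfalso
          have := d.hm.uniq _ _ h
          rw [← d.hm.uniq _ _ d.hxy] at this
          exact ((d.hS b).1 hbS).2 this
      · by_cases hby : b = a
        · exact absurd hby hab.1.ne'
        have hbS : S b := (d.hS b).2 ⟨hbx, hby⟩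
        rcases adj_cases hh.weight hab.1 with h | h
        · exact Or.inr ⟨hbS, hW' hT b h hbS⟩
        · exfalso
          have := d.hm.uniq _ _ h
          rw [← d.hm.uniq _ _ (W2_symm d.hxy)] at this
          exact hbx this
      · by_cases hby : b = y
        · subst hby
          left
          refine ⟨rfl, ?_⟩
          rcases adj_cases hh.weight hab.1 with h | h
          · exact hW a (W1_symm h) haS hT
          · exfalso
            have := d.hm.uniq _ _ (W2_symm h)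
            rw [← d.hm.uniq _ _ (W2_symm d.hxy)] at this
            exact ((d.hS a).1 haS).1 this
        · right
          have hbS : S b := (d.hS b).2 ⟨hbx, hby⟩
          refine ⟨hbS, ?_⟩
          rcases adj_cases hh.weight hab.1 with h | h
          · by_cases hcc : c a b
            · have := (d.al ⟨a, haS⟩ ⟨b, hbS⟩).1 (Or.inl ⟨h, hcc⟩)
              rw [this]; exact h2 _ hT
            · have := (d.be ⟨a, haS⟩ ⟨b, hbS⟩).1 (Or.inl ⟨h, hcc⟩)
              rw [this]; exact h3 _ hT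
          · have := d.w2_uniq (v := ⟨a, haS⟩) (u := ⟨b, hbS⟩) h
            rw [this]; exact h1 _ hT
  rcases key y h0 with h | ⟨-, h⟩ | ⟨h, -⟩
  · exact absurd h.symm hh.adj.ne
  · exact h
  · exact absurd rfl ((d.hS y).1 h).2

end Pool.Agent.H34CP.Gr
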