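import Pool.Agent.H34CP.Gr.Crit

/-!
# Cyclic 4-edge-connectivity
-/

namespace Pool.Agent.H34CP.Gr

open Pool.Agent.H66.GD Pool.Agent.H21.PT Finset
open scoped Classical

universe u
variable {V : Type u} [Fintype V] {G : SimpleGraph V} {w : Sym2 V → ℕ} {x y : V}
  {m : V → V} {c : V → V → Prop} {S : V → Prop} {P : Pair {v // S v}}

omit [Fintype V] in
theorem cut3 (hcc : CycConn4 G) (A : V → Prop) (e1 e2 e3 : Sym2 V)
    (hcr : ∀ u v, G.Adj u v → A u → ¬ A v → s(u, v) = e1 ∨ s(u, v) = e2 ∨ s(u, v) = e3)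
    {K1 K2 : G.Subgraph} (h1 : IsCircuit K1) (h2 : IsCircuit K2) (hK1 : ∀ v ∈ K1.verts, A v)
    (hK2 : ∀ v ∈ K2.verts, ¬ A v) : False := by
  refine hcc {v | A v} ?_ ⟨⟨K1, h1, hK1⟩, ⟨K2, h2, hK2⟩⟩
  have h3 : {e ∈ G.edgeSet | ∃ u ∈ {v | A v}, ∃ v ∉ {v | A v}, e = s(u, v)} ⊆
      (({e1, e2, e3} : Finset (Sym2 V)) : Set (Sym2 V)) := by
    rintro e ⟨he, u, hu, v, hv, rfl⟩
    have := hcr u v he hu hv
    simpa using this
  refine (Set.ncard_le_ncard h3 (Set.toFinite _)).trans ?_
  rw [Set.ncard_coe_finset]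
  exact card_le_three

/-- The circuits of the edges of weight one. -/
theorem F_circuit (hm : Typ G w m) (r : V) :
    ∃ K : G.Subgraph, IsCircuit K ∧ ∀ v, v ∈ K.verts ↔ (FG G w).Reachable r v := by
  have hle : FG G w ≤ G := fun u v h => h.1
  refine ⟨comp hle r, comp_circuit _ _ fun v _ => ?_, fun v => Iff.rfl⟩
  obtain ⟨a, b, hab, h⟩ := hm.two v
  have : (FG G w).neighborSet v = {a, b} := by
    ext u
    exact h u
  rw [this, Set.ncard_pair hab]

omit [Fintype V] in
theorem tri_circuit {a b v : V} (h1 : G.Adj v a) (h2 : G.Adj v b) (h3 : G.Adj a b) :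
    ∃ K : G.Subgraph, IsCircuit K ∧ ∀ z ∈ K.verts, z = v ∨ z = a ∨ z = b := by
  let H : SimpleGraph V :=
    { Adj := fun p q => p ≠ q ∧ (p = v ∨ p = a ∨ p = b) ∧ (q = v ∨ q = a ∨ q = b)
      symm := ⟨fun _ _ h => ⟨h.1.symm, h.2.2, h.2.1⟩⟩
      loopless := ⟨fun _ h => h.1 rfl⟩ }
  have hadj : ∀ p q, H.Adj p q ↔ p ≠ q ∧ (p = v ∨ p = a ∨ p = b) ∧ (q = v ∨ q = a ∨ q = b) :=
    fun _ _ => Iff.rfl
  have hle : H ≤ G := by
    rintro p q ⟨hne, hp, hq⟩
    rcases hp with rfl | rfl | rfl <;> rcases hq with rfl | rfl | rfl <;>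
      first | exact absurd rfl hne | assumption | (symm; assumption)
  have hmem : ∀ z, H.Reachable v z → z = v ∨ z = a ∨ z = b := by
    intro z hz
    rw [SimpleGraph.reachable_iff_reflTransGen] at hz
    rcases Relation.ReflTransGen.cases_tail hz with h | ⟨q, -, h⟩
    · exact Or.inl h
    · exact h.2.2
  refine ⟨comp hle v, comp_circuit _ _ fun z hz => ?_, fun z hz => hmem z hz⟩
  rcases hmem z hz with rfl | rfl | rfl
  · have : H.neighborSet z = {a, b} := by
      ext q
      rw [SimpleGraph.mem_neighborSet, hadj]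
      constructor
      · rintro ⟨g1, -, rfl | g2⟩
        · exact absurd rfl g1
        · exact g2
      · rintro (rfl | rfl)
        · exact ⟨h1.ne, Or.inl rfl, Or.inr (Or.inl rfl)⟩
        · exact ⟨h2.ne, Or.inl rfl, Or.inr (Or.inr rfl)⟩
    rw [this, Set.ncard_pair h3.ne]
  · have : H.neighborSet z = {v, b} := by
      ext q
      rw [SimpleGraph.mem_neighborSet, hadj]
      constructor
      · rintro ⟨g1, -, rfl | rfl | rfl⟩
        · exact Or.inl rfl
        · exact absurd rfl g1
        · exact Or.inr rfl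
      · rintro (rfl | rfl)
        · exact ⟨h1.ne', Or.inr (Or.inl rfl), Or.inl rfl⟩
        · exact ⟨h3.ne, Or.inr (Or.inl rfl), Or.inr (Or.inr rfl)⟩
    rw [this, Set.ncard_pair h2.ne]
  · have : H.neighborSet z = {v, a} := by
      ext q
      rw [SimpleGraph.mem_neighborSet, hadj]
      constructor
      · rintro ⟨g1, -, rfl | rfl | rfl⟩
        · exact Or.inl rfl
        · exact Or.inr rfl
        · exact absurd rfl g1
      · rintro (rfl | rfl)
        · exact ⟨h2.ne', Or.inr (Or.inr rfl), Or.inl rfl⟩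
        · exact ⟨h3.ne', Or.inr (Or.inr rfl), Or.inr (Or.inl rfl)⟩
    rw [this, Set.ncard_pair h1.ne]

/-- The triangle through `x`. -/
theorem no_tri_x (hcc : CycConn4 G) (hw : IsWeight G w) (hm : Typ G w m)
    (hr : ¬ (FG G w).Reachable x y)
    {v u : V} (h1 : W1 G w x v) (h2 : W1 G w x u) (h3 : W1 G w v u) : False := by
  have hvu : v ≠ u := h3.1.ne
  obtain ⟨K1, hK1, hv1⟩ := F_circuit (w := w) hm x
  obtain ⟨K2, hK2, hv2⟩ := F_circuit (w := w) hm y
  obtain ⟨a, ha, ha'⟩ := hm.other h1
  have e1 : u = a := by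
    rcases (ha' u).1 h2 with h | h
    · exact absurd h hvu.symm
    · exact h
  subst e1
  obtain ⟨b, hb, hb'⟩ := hm.other (W1_symm h1)
  have e2 : u = b := by
    rcases (hb' u).1 h3 with h | h
    · exact absurd h h2.1.ne'
    · exact h
  subst e2
  obtain ⟨b, hb2, hb2'⟩ := hm.other (W1_symm h2)
  have e3 : v = b := by
    rcases (hb2' v).1 (W1_symm h3) with h | h
    · exact absurd h h1.1.ne'
    · exact h
  subst e3
  have hclos : ∀ p, (FG G w).Reachable x p → p = x ∨ p = v ∨ p = u := by
    intro p hp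
    rw [SimpleGraph.reachable_iff_reflTransGen] at hp
    induction hp with
    | refl => exact Or.inl rfl
    | tail _ hab ih =>
      rcases ih with rfl | rfl | rfl
      · rcases (ha' _).1 hab with h | h <;> tauto
      · rcases (hb' _).1 hab with h | h <;> tauto
      · rcases (hb2' _).1 hab with h | h <;> tauto
  refine cut3 hcc (fun p => p = x ∨ p = v ∨ p = u) s(x, m x) s(v, m v) s(u, m u) ?_ hK1 hK2
    (fun p hp => hclos p ((hv1 p).1 hp)) ?_
  · intro p q hpq hp hq
    rcases adj_cases hw hpq with h | h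
    · exfalso
      apply hq
      rcases hp with rfl | rfl | rfl
      · rcases (ha' q).1 h with h4 | h4 <;> tauto
      · rcases (hb' q).1 h with h4 | h4 <;> tauto
      · rcases (hb2' q).1 h with h4 | h4 <;> tauto
    · rw [hm.uniq _ _ h]
      rcases hp with rfl | rfl | rfl <;> tauto
  · intro p hp hp'
    have h4 := (hv2 p).1 hp
    have h5 : (FG G w).Reachable x p := by
      rcases hp' with rfl | rfl | rfl
      · exact SimpleGraph.Reachable.refl _
      · exact SimpleGraph.Adj.reachable h1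
      · exact SimpleGraph.Adj.reachable h2
    exact hr (h5.trans h4.symm)

/-- The other triangles. -/
theorem no_tri (hcc : CycConn4 G) (hw : IsWeight G w) (hm : Typ G w m)
    (hr : ¬ (FG G w).Reachable x y)
    {v a b : V} (h1 : W1 G w v a) (h2 : W1 G w v b) (h3 : W2 G w a b) : False := by
  have hab : a ≠ b := h3.1.ne
  obtain ⟨K1, hK1, hv1⟩ := tri_circuit h1.1 h2.1 h3.1
  have hK2 : ∃ K2 : G.Subgraph, IsCircuit K2 ∧ ∀ p ∈ K2.verts, ¬ (FG G w).Reachable v p := by
    by_cases hx : (FG G w).Reachable v x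
    · obtain ⟨K2, hK2, hv2⟩ := F_circuit (w := w) hm y
      refine ⟨K2, hK2, fun p hp hp' => hr ?_⟩
      exact hx.symm.trans (hp'.trans ((hv2 p).1 hp).symm)
    · obtain ⟨K2, hK2, hv2⟩ := F_circuit (w := w) hm x
      refine ⟨K2, hK2, fun p hp hp' => hx ?_⟩
      exact hp'.trans ((hv2 p).1 hp).symm
  obtain ⟨K2, hK2, hv2⟩ := hK2
  obtain ⟨a', ha, ha'⟩ := hm.other (W1_symm h1)
  obtain ⟨b', hb, hb'⟩ := hm.other (W1_symm h2)
  obtain ⟨b0, hb0, hb0'⟩ := hm.other h1
  have e1 : b = b0 := by
    rcases (hb0' b).1 h2 with h | h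
    · exact absurd h hab.symm
    · exact h
  subst e1
  have hma := hm.uniq _ _ h3
  have hmb := hm.uniq _ _ (W2_symm h3)
  refine cut3 hcc (fun p => p = v ∨ p = a ∨ p = b) s(v, m v) s(a, a') s(b, b') ?_ hK1 hK2
    hv1 ?_
  · intro p q hpq hp hq
    rcases adj_cases hw hpq with h | h
    · rcases hp with rfl | rfl | rfl
      · exfalso
        rcases (hb0' q).1 h with h4 | h4 <;> tauto
      · rcases (ha' q).1 h with rfl | rfl <;> tauto
      · rcases (hb' q).1 h with rfl | rfl <;> tauto
    · rcases hp with rfl | rfl | rfl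
      · rw [hm.uniq _ _ h]; tauto
      · exfalso
        have := hm.uniq _ _ h
        rw [← hma] at this
        tauto
      · exfalso
        have := hm.uniq _ _ h
        rw [← hmb] at this
        tauto
  · intro p hp hp'
    apply hv2 p hp
    rcases hp' with rfl | rfl | rfl
    · exact SimpleGraph.Reachable.refl _
    · exact SimpleGraph.Adj.reachable h1
    · exact SimpleGraph.Adj.reachable h2

/-- A circuit of the cover inside a closed set. -/
theorem T_circuit (d : Dict G w x y m c S P) (T : {v // S v} → Prop)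
    (h1 : ∀ v, T v → T (P.mu v)) (h2 : ∀ v, T v → T (P.al v)) {t : {v // S v}} (ht : T t) :
    ∃ K : G.Subgraph, IsCircuit K ∧ ∀ v ∈ K.verts, v = x ∨ up S T v := by
  let H : SimpleGraph V :=
    { Adj := fun p q => (W1 G w p q ∧ c p q) ∨ (W2 G w p q ∧ p ≠ x ∧ q ≠ x)
      symm := ⟨by
        rintro p q (⟨g1, g2⟩ | ⟨g1, g2, g3⟩)
        · exact Or.inl ⟨W1_symm g1, d.hc.symm _ _ g2⟩
        · exact Or.inr ⟨W2_symm g1, g3, g2⟩⟩
      loopless := ⟨by
        rintro p (⟨g1, g2⟩ | ⟨g1, g2⟩)
        · exact G.loopless.irrefl p g1.1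
        · exact G.loopless.irrefl p g1.1⟩ }
  have hadj : ∀ p q, H.Adj p q ↔ (W1 G w p q ∧ c p q) ∨ (W2 G w p q ∧ p ≠ x ∧ q ≠ x) :=
    fun _ _ => Iff.rfl
  have hle : H ≤ G := by
    rintro p q (⟨g1, g2⟩ | ⟨g1, g2⟩)
    · exact g1.1
    · exact g1.1
  -- `y` is not reached
  have hcy : ∀ p, W1 G w p y → ¬ c p y := fun p g1 g2 =>
    (d.hc.aty p (W1_symm g1)).1 (d.hc.symm _ _ g2)
  have hreach : ∀ z, H.Reachable t z → (z = x ∧ T P.p0) ∨ up S T z := by
    intro z hz
    rw [SimpleGraph.reachable_iff_reflTransGen] at hz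
    induction hz with
    | refl => exact Or.inr ⟨t.2, ht⟩
    | tail _ hab ih =>
      rename_i p q _
      rw [hadj] at hab
      rcases ih with ⟨rfl, hT⟩ | ⟨hp, hT⟩
      · rcases hab with ⟨g1, g2⟩ | ⟨-, g, -⟩
        · right
          have hq : S q := by
            rw [d.hS]
            exact ⟨g1.1.ne', fun h => hcy p (h ▸ g1) (h ▸ g2)⟩
          refine ⟨hq, ?_⟩
          rcases (d.x_nbr ⟨q, hq⟩).1 g1 with h | h
          · rw [h]; exact hT
          · rw [h]; exact h2 _ hT
        · exact absurd rfl g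
      · rcases hab with ⟨g1, g2⟩ | ⟨g1, -, -⟩
        · by_cases hqx : q = x
          · subst hqx
            left
            refine ⟨rfl, ?_⟩
            rcases (d.x_nbr ⟨p, hp⟩).1 (W1_symm g1) with h | h
            · rwa [h] at hT
            · rw [h] at hT
              have := h2 _ hT
              rwa [P.al_al] at this
          · right
            have hq : S q := by
              rw [d.hS]
              exact ⟨hqx, fun h => hcy p (h ▸ g1) (h ▸ g2)⟩
            refine ⟨hq, ?_⟩
            have := (d.al ⟨p, hp⟩ ⟨q, hq⟩).1 (Or.inl ⟨g1, g2⟩)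
            rw [this]; exact h2 _ hT
        · right
          have hq : S q := d.w2_mem g1 hp
          refine ⟨hq, ?_⟩
          have := d.w2_uniq (v := ⟨p, hp⟩) (u := ⟨q, hq⟩) g1
          rw [this]; exact h1 _ hT
  refine ⟨comp hle t, comp_circuit _ _ fun z hz => ?_, fun z hz => ?_⟩
  · rcases hreach z hz with ⟨rfl, -⟩ | ⟨hz, -⟩
    · obtain ⟨a, b, hab, h⟩ := d.hm.two z
      have : H.neighborSet z = {a, b} := by
        ext u
        rw [SimpleGraph.mem_neighborSet, hadj]
        constructor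
        · rintro (⟨g1, -⟩ | ⟨-, g, -⟩)
          · exact (h u).1 g1
          · exact absurd rfl g
        · intro hu
          have h5 := (h u).2 hu
          exact Or.inl ⟨h5, (d.hc.atx u h5).2 trivial⟩
      rw [this, Set.ncard_pair hab]
    · obtain ⟨a, b, hab, h, ha, hb⟩ := d.hc.pick d.hm ((d.hS z).1 hz).1 ((d.hS z).1 hz).2
      have hW := (h a).2 (Or.inl rfl)
      have : H.neighborSet z = {a, m z} := by
        ext u
        rw [SimpleGraph.mem_neighborSet, hadj]
        constructor
        · rintro (⟨g1, g2⟩ | ⟨g, -, -⟩)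
          · rcases (h u).1 g1 with rfl | rfl
            · exact Or.inl rfl
            · exact absurd g2 hb
          · exact Or.inr (d.hm.uniq _ _ g)
        · rintro (rfl | rfl)
          · exact Or.inl ⟨hW, ha⟩
          · refine Or.inr ⟨d.hm.adj z, ((d.hS z).1 hz).1, ?_⟩
            exact ((d.hS _).1 (d.w2_mem (d.hm.adj z) hz)).1
      rw [this, Set.ncard_pair]
      rintro rfl
      exact W12 hW (d.hm.adj z)
  · rcases hreach z hz with ⟨h, -⟩ | h
    · exact Or.inl h
    · exact Or.inr h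

theorem cut_b_of_dict (hcc : CycConn4 G) (hw : IsWeight G w) (d : Dict G w x y m c S P)
    (Y T T' : {v // S v} → Prop) (u u' : {v // S v})
    (hmu : ∀ v, Y v ↔ Y (P.mu v)) (hal : ∀ v, Y v ↔ Y (P.al v))
    (hbe : ∀ v, v ≠ u → v ≠ P.be u → v ≠ u' → v ≠ P.be u' → (Y v ↔ Y (P.be v)))
    (hp : Y P.p0) (hq : ¬ Y P.q0) (t0 : ∃ v, T v) (tY : ∀ v, T v → Y v)
    (t1 : ∀ v, T v → T (P.mu v)) (t2 : ∀ v, T v → T (P.al v)) (t0' : ∃ v, T' v)
    (tY' : ∀ v, T' v → ¬ Y v) (t1' : ∀ v, T' v → T' (P.mu v))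
    (t2' : ∀ v, T' v → T' (P.be v)) : False := by
  obtain ⟨t, ht⟩ := t0
  obtain ⟨t', ht'⟩ := t0'
  obtain ⟨K1, hK1, hv1⟩ := T_circuit d T t1 t2 ht
  obtain ⟨K2, hK2, hv2⟩ := T_circuit d.swap T' t1' t2' ht'
  have hxS : ¬ S x := fun h => ((d.hS x).1 h).1 rfl
  have hyS : ¬ S y := fun h => ((d.hS y).1 h).2 rfl
  have hxy : x ≠ y := d.hxy.1.ne
  let f : {v // S v} → Sym2 V := fun z =>
    if z = P.q0 ∨ z = P.be P.q0 then s((P.be P.q0 : V), y) else s((z : V), (P.be z : V))
  refine cut3 hcc (fun v => v = x ∨ up S Y v) s(x, y) (f u) (f u') ?_ hK1 hK2 ?_ ?_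
  · have hYp : Y (P.al P.p0) := (hal _).1 hp
    have hX : ∀ q, W1 G w x q → ∀ hq : S q, Y ⟨q, hq⟩ := by
      intro q hq1 hq2
      rcases (d.x_nbr ⟨q, hq2⟩).1 hq1 with h | h
      · rw [h]; exact hp
      · rw [h]; exact hYp
    have hf : ∀ z : {v // S v}, Y z → ¬ Y (P.be z) → z ≠ P.be P.q0 →
        s((z : V), (P.be z : V)) = f u ∨ s((z : V), (P.be z : V)) = f u' := by
      intro z hz1 hz2 hz3
      have hz4 : z ≠ P.q0 := by
        rintro rfl; exact hq hz1
      have hz : z = u ∨ z = P.be u ∨ z = u' ∨ z = P.be u' := by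
        by_contra hcon
        push Not at hcon
        exact hz2 ((hbe z hcon.1 hcon.2.1 hcon.2.2.1 hcon.2.2.2).1 hz1)
      have hfz : f z = s((z : V), (P.be z : V)) := by
        simp only [f]
        rw [if_neg]
        rintro (h | h)
        · exact hz4 h
        · exact hz3 h
      have hfb : ∀ a, f (P.be a) = f a := by
        intro a
        simp only [f, P.be_be]
        by_cases h : a = P.q0 ∨ a = P.be P.q0
        · have h' : P.be a = P.q0 ∨ P.be a = P.be P.q0 := by
            rcases h with rfl | rfl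
            · exact Or.inr rfl
            · exact Or.inl (P.be_be _)
          rw [if_pos h, if_pos h']
        · have h' : ¬ (P.be a = P.q0 ∨ P.be a = P.be P.q0) := by
            rintro (h' | h')
            · exact h (Or.inr (by rw [← h', P.be_be]))
            · exact h (Or.inl (by rw [← P.be_be a, h', P.be_be]))
          rw [if_neg h, if_neg h', Sym2.eq_swap]
      rw [← hfz]
      rcases hz with rfl | rfl | rfl | rfl
      · exact Or.inl rfl
      · exact Or.inl (hfb _)
      · exact Or.inr rfl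
      · exact Or.inr (hfb _)
    intro a b hab ha hb
    have hbx : b ≠ x := fun h => hb (Or.inl h)
    rcases ha with rfl | ⟨haS, haY⟩
    · by_cases hby : b = y
      · left; rw [hby]
      · exfalso
        have hbS : S b := (d.hS b).2 ⟨hbx, hby⟩
        apply hb
        right
        refine ⟨hbS, ?_⟩
        rcases adj_cases hw hab with h | h
        · exact hX b h hbS
        · exact absurd ((d.hm.uniq _ _ h).trans (d.hm.uniq _ _ d.hxy).symm) hby
    · right
      by_cases hby : b = y
      · subst hby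
        have h1 : W1 G w a b := by
          rcases adj_cases hw hab with h | h
          · exact h
          · exfalso
            have := d.w2_mem h haS
            exact hyS this
        have h2 : (⟨a, haS⟩ : {v // S v}) = P.be P.q0 := by
          rcases (d.swap.x_nbr ⟨a, haS⟩).1 (W1_symm h1) with h | h
          · exfalso
            rw [h] at haY
            exact hq haY
          · exact h
        have h3 : ¬ (Y P.q0 ↔ Y (P.be P.q0)) := by
          rw [← h2]
          intro h
          exact hq (h.2 haY)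
        have h4 : P.q0 = u ∨ P.q0 = P.be u ∨ P.q0 = u' ∨ P.q0 = P.be u' := by
          by_contra hcon
          push Not at hcon
          exact h3 (hbe _ hcon.1 hcon.2.1 hcon.2.2.1 hcon.2.2.2)
        have h5 : ∀ z, P.q0 = z ∨ P.q0 = P.be z → s(a, b) = f z := by
          intro z hz
          simp only [f]
          rw [if_pos]
          · rw [← h2]
          · rcases hz with h | h
            · exact Or.inl h.symm
            · exact Or.inr (by rw [h, P.be_be])
        rcases h4 with h | h | h | h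
        · exact Or.inl (h5 _ (Or.inl h))
        · exact Or.inl (h5 _ (Or.inr h))
        · exact Or.inr (h5 _ (Or.inl h))
        · exact Or.inr (h5 _ (Or.inr h))
      · have hbS : S b := (d.hS b).2 ⟨hbx, hby⟩
        have hbY : ¬ Y ⟨b, hbS⟩ := fun h => hb (Or.inr ⟨hbS, h⟩)
        rcases adj_cases hw hab with h | h
        · by_cases hcc : c a b
          · exfalso
            have h1 := (d.al ⟨a, haS⟩ ⟨b, hbS⟩).1 (Or.inl ⟨h, hcc⟩)
            rw [h1] at hbY
            exact hbY ((hal _).1 haY)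
          · have h1 := (d.be ⟨a, haS⟩ ⟨b, hbS⟩).1 (Or.inl ⟨h, hcc⟩)
            have h2 : (⟨a, haS⟩ : {v // S v}) ≠ P.be P.q0 := by
              intro h3
              -- then the edge goes to `y`
              have h4 : W1 G w y a := by
                have := d.swap.al_p0
                rw [show P.swap.al P.swap.p0 = P.be P.q0 from rfl, ← h3] at this
                exact this
              have h5 := d.hc.flip.mid a ((d.hS a).1 haS).2 ((d.hS a).1 haS).1 y b (Ne.symm hby)
                (W1_symm h4) h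
              have h6 : ¬ c a y := fun h7 => (d.hc.aty a h4).1 (d.hc.symm _ _ h7)
              exact h5.1 h6 hcc
            have h3 := hf ⟨a, haS⟩ haY (by rw [← h1]; exact hbY) h2
            rw [← h1] at h3
            exact h3
        · exfalso
          have h1 := d.w2_uniq (v := ⟨a, haS⟩) (u := ⟨b, hbS⟩) h
          rw [h1] at hbY
          exact hbY ((hmu _).1 haY)
  · intro v hv
    rcases hv1 v hv with h | ⟨h, h'⟩
    · exact Or.inl h
    · exact Or.inr ⟨h, tY _ h'⟩
  · intro v hv
    rcases hv2 v hv with h | ⟨h, h'⟩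
    · rintro (h1 | ⟨h1, -⟩)
      · exact hxy (h1.symm.trans h)
      · exact hyS (h ▸ h1)
    · rintro (h1 | ⟨h1, h2⟩)
      · exact hxS (h1 ▸ h)
      · exact tY' _ h' h2

/-- **The cut conditions.** -/
theorem cuts_of_dict (hcc : CycConn4 G) (hw : IsWeight G w) (d : Dict G w x y m c S P)
    (hr : ¬ (FG G w).Reachable x y) : P.Cuts where
  digon := by
    intro v h
    rcases (d.al v (P.al v)).2 rfl with ⟨h1, h2⟩ | ⟨h1, h2, h3⟩
    · rcases (d.be v (P.be v)).2 rfl with ⟨g1, g2⟩ | ⟨g1, g2, g3⟩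
      · rw [← h] at g2
        exact g2 h2
      · rw [← h] at g2
        exact no_tri_x (x := y) (y := x) hcc hw d.hm (fun h => hr h.symm) g1 g2 h1
    · rcases (d.be v (P.be v)).2 rfl with ⟨g1, g2⟩ | ⟨g1, g2, g3⟩
      · rw [← h] at g1
        exact no_tri_x hcc hw d.hm hr h1 h2 g1
      · apply hr
        have e1 : (FG G w).Adj x v := h1
        have e2 : (FG G w).Adj y v := g1
        exact e1.reachable.trans e2.reachable.symm
  tri := by
    intro v h1 h2 h3 h4 h
    have e1 := (d.direct h1 h2).1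
    have e2 := (d.swap.direct (v := v) h3 h4).1
    have e3 := d.w2 (P.al v)
    rw [h] at e3
    exact no_tri hcc hw d.hm hr e1 e2 e3
  cut_b := cut_b_of_dict hcc hw d
  cut_a := cut_b_of_dict hcc hw d.swap

end Pool.Agent.H34CP.Gr
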