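import Mathlib

/-!
# Pairs with coloured `F` (MP_472c72_co, class K): definitions

`E` is the set of the vertices other than `x`, `y` (the ends of the edges of weight two other than
`e = xy`), `mu` is the matching, `al` and `be` are the two colours of the edges of weight one,
where the path through `x` (from `p0` to `al p0`) counts as one `al`-edge and the path through `y`
(from `q0` to `be q0`) as one `be`-edge.
-/

namespace Pool.Agent.H34CP.Gr

universe u

/-- A pair with coloured `F`. -/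
structure Pair (E : Type u) where
  mu : E → E
  al : E → E
  be : E → E
  p0 : E
  q0 : E
  mu_mu : ∀ v, mu (mu v) = v
  al_al : ∀ v, al (al v) = v
  be_be : ∀ v, be (be v) = v
  mu_ne : ∀ v, mu v ≠ v
  al_ne : ∀ v, al v ≠ v
  be_ne : ∀ v, be v ≠ v

namespace Pair

variable {E : Type u} (P : Pair E)

/-- A nonempty union of alternating circuits which avoid `x` and `y`: `za` and `zb` are the sets of
the ends at which it uses the colour `al`, resp. `be`. -/
structure Alt (za zb : E → Prop) : Prop where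
  a_inv : ∀ v, za v → za (P.al v)
  b_inv : ∀ v, zb v → zb (P.be v)
  p0 : ¬ za P.p0
  q0 : ¬ zb P.q0
  disj : ∀ v, za v → ¬ zb v
  mu_inv : ∀ v, za v ∨ zb v → za (P.mu v) ∨ zb (P.mu v)
  ne : ∃ v, za v ∨ zb v

/-- `G - D` has a bridge: either the edge `h, mu h` off `D` or the edge `e`. The set `Y` is one
side of the bridge. -/
def Bridge (za zb : E → Prop) : Prop :=
  ∃ Y : E → Prop, (∀ v, ¬ za v → (Y v ↔ Y (P.al v))) ∧ (∀ v, ¬ zb v → (Y v ↔ Y (P.be v))) ∧
    ((∃ h, ¬ za h ∧ ¬ zb h ∧ Y h ∧ ¬ Y (P.mu h) ∧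
        (∀ v, v ≠ h → v ≠ P.mu h → (Y v ↔ Y (P.mu v))) ∧ (Y P.p0 ↔ Y P.q0)) ∨
      ((∀ v, Y v ↔ Y (P.mu v)) ∧ Y P.p0 ∧ ¬ Y P.q0))

/-- Every nonempty union of alternating circuits avoiding `x`, `y` leaves a bridge. -/
def Crit : Prop := ∀ za zb : E → Prop, P.Alt za zb → P.Bridge za zb

/-- The pair read from the other end: `x`, `y` and the two colours are exchanged. -/
def swap : Pair E where
  mu := P.mu
  al := P.be
  be := P.al
  p0 := P.q0
  q0 := P.p0
  mu_mu := P.mu_mu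
  al_al := P.be_be
  be_be := P.al_al
  mu_ne := P.mu_ne
  al_ne := P.be_ne
  be_ne := P.al_ne

/-- The circuits of the cover form a chain: `ra v` is the number of the `mu`-`al`-circuit through
`v`, `rb v` the number of the `mu`-`be`-circuit. Two ends with the same number lie in the same
circuit (the last two conditions). -/
structure Chain (ra rb : E → ℕ) (r : ℕ) : Prop where
  a_mu : ∀ v, ra (P.mu v) = ra v
  a_al : ∀ v, ra (P.al v) = ra v
  b_mu : ∀ v, rb (P.mu v) = rb v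
  b_be : ∀ v, rb (P.be v) = rb v
  step : ∀ v, ra v = rb v + 1 ∨ rb v = ra v + 1
  p0 : ra P.p0 = 0
  q0 : rb P.q0 = r
  a_conn : ∀ T : E → Prop, (∀ v, T v → T (P.mu v)) → (∀ v, T v → T (P.al v)) →
    ∀ u v, ra u = ra v → T u → T v
  b_conn : ∀ T : E → Prop, (∀ v, T v → T (P.mu v)) → (∀ v, T v → T (P.be v)) →
    ∀ u v, rb u = rb v → T u → T v

/-- What cyclic 4-edge-connectivity gives. -/
structure Cuts : Prop where
  /-- no digon (and no triangle through `x` or `y`) -/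
  digon : ∀ v, P.al v ≠ P.be v
  /-- no triangle -/
  tri : ∀ v, v ≠ P.p0 → v ≠ P.al P.p0 → v ≠ P.q0 → v ≠ P.be P.q0 → P.mu (P.al v) ≠ P.be v
  /-- no cut formed by `e` and two further edges, with a `mu`-`al`-circuit on the side of `x` and
  a `mu`-`be`-circuit on the side of `y` -/
  cut_b : ∀ (Y T T' : E → Prop) (u u' : E), (∀ v, Y v ↔ Y (P.mu v)) → (∀ v, Y v ↔ Y (P.al v)) →
    (∀ v, v ≠ u → v ≠ P.be u → v ≠ u' → v ≠ P.be u' → (Y v ↔ Y (P.be v))) →
    Y P.p0 → ¬ Y P.q0 → (∃ v, T v) → (∀ v, T v → Y v) → (∀ v, T v → T (P.mu v)) →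
    (∀ v, T v → T (P.al v)) → (∃ v, T' v) → (∀ v, T' v → ¬ Y v) → (∀ v, T' v → T' (P.mu v)) →
    (∀ v, T' v → T' (P.be v)) → False
  cut_a : ∀ (Y T T' : E → Prop) (u u' : E), (∀ v, Y v ↔ Y (P.mu v)) → (∀ v, Y v ↔ Y (P.be v)) →
    (∀ v, v ≠ u → v ≠ P.al u → v ≠ u' → v ≠ P.al u' → (Y v ↔ Y (P.al v))) →
    Y P.q0 → ¬ Y P.p0 → (∃ v, T v) → (∀ v, T v → Y v) → (∀ v, T v → T (P.mu v)) →
    (∀ v, T v → T (P.be v)) → (∃ v, T' v) → (∀ v, T' v → ¬ Y v) → (∀ v, T' v → T' (P.mu v)) →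
    (∀ v, T' v → T' (P.al v)) → False

end Pair

end Pool.Agent.H34CP.Gr
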