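import Pool.Agent.H34CP.Gr.Back

/-!
# The theorem on graphs, from the abstract theorem
-/

namespace Pool.Agent.H34CP.Gr

open Pool.Agent.H66.GD Pool.Agent.H21.PT Finset
open scoped Classical

universe u
variable {V : Type u} [Fintype V] {G : SimpleGraph V} {w : Sym2 V → ℕ}

/-- `(G - e, w)` has a faithful circuit cover: finitely many circuits of `G` (repetitions allowed)
such that `e` lies in none of them and every other edge `f` of `G` lies in exactly `w f` of them. -/
def CoverMinus (G : SimpleGraph V) (w : Sym2 V → ℕ) (e : Sym2 V) : Prop :=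
  ∃ (n : ℕ) (C : Fin n → G.Subgraph), (∀ i, IsCircuit (C i)) ∧
    ∀ f ∈ G.edgeSet, {i | f ∈ (C i).edgeSet}.ncard = if f = e then 0 else w f

/-- A pair with a faithful cover has a removable circuit. -/
theorem removable_of_cover (hw : IsWeight G w) {e : Sym2 V} (he : e ∈ G.edgeSet)
    (hcov : FaithfulCover G w) : ∃ C : G.Subgraph, Removable G w C := by
  obtain ⟨n, C, hC, hcount⟩ := hcov
  have hex : ∃ i, e ∈ (C i).edgeSet := by
    have h1 := hcount e he
    have h2 : 0 < {i | e ∈ (C i).edgeSet}.ncard := by
      rcases hw.1 e he with h | h <;> omega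
    obtain ⟨i, hi⟩ := (Set.ncard_pos).1 h2
    exact ⟨i, hi⟩
  obtain ⟨i, -⟩ := hex
  refine ⟨C i, hC i, ?_, less_eulerian hw (hC i)⟩
  intro f hf hbr
  have hfG : f ∈ G.edgeSet := by
    induction f using Sym2.ind with
    | _ a b => exact hf.1
  have hless : 0 < less w (C i) f := by
    induction f using Sym2.ind with
    | _ a b => exact hf.2
  have hpos : ∀ j, j ≠ i → ∀ g ∈ (C j).edgeSet, g ∈ (pos G (less w (C i))).edgeSet := by
    intro j hj g hg
    have hgG : g ∈ G.edgeSet := (C j).edgeSet_subset hg
    have h3 : 0 < less w (C i) g := by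
      unfold less
      split_ifs with h4
      · have h5 : ({i, j} : Set (Fin n)) ⊆ {i | g ∈ (C i).edgeSet} := by
          rintro k (rfl | rfl)
          · exact h4
          · exact hg
        have h6 := Set.ncard_le_ncard h5 (Set.toFinite _)
        rw [Set.ncard_pair hj.symm, hcount g hgG] at h6
        omega
      · rcases hw.1 g hgG with h | h <;> omega
    induction g using Sym2.ind with
    | _ a b => exact ⟨hgG, h3⟩
  have h2 : ∃ j, j ≠ i ∧ f ∈ (C j).edgeSet := by
    by_contra hcon
    push Not at hcon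
    have h3 : {j | f ∈ (C j).edgeSet} ⊆ {i} := by
      intro j hj
      by_contra hji
      exact hcon j hji hj
    have h4 := Set.ncard_le_ncard h3 (Set.toFinite _)
    rw [hcount f hfG, Set.ncard_singleton] at h4
    have h5 : w f = 1 := by
      rcases hw.1 f hfG with h | h <;> omega
    have h6 : 0 < {j | f ∈ (C j).edgeSet}.ncard := by
      rw [hcount f hfG]; omega
    obtain ⟨j, hj⟩ := (Set.ncard_pos).1 h6
    have hji := h3 hj
    rw [Set.mem_singleton_iff] at hji
    subst hji
    have hj' : f ∈ (C j).edgeSet := hj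
    unfold less at hless
    rw [if_pos hj'] at hless
    omega
  obtain ⟨j, hj, hej⟩ := h2
  induction f using Sym2.ind with
  | _ a b =>
    rw [SimpleGraph.isBridge_iff] at hbr
    apply hbr
    have h3 := (isCycles_of_circuit (hC j)).reachable_deleteEdges
      (show (C j).spanningCoe.Adj a b from hej)
    refine h3.mono ?_
    intro u v huv
    rw [SimpleGraph.deleteEdges_adj] at huv ⊢
    exact ⟨hpos j hj s(u, v) huv.1, huv.2⟩

/-- **The theorem on graphs.** -/
theorem final
    (abstr : ∀ (E : Type u) [Fintype E] (P : Pair E), P.Crit → P.Conn → P.Cuts → P.IsP10)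
    (hG : Cubic G) (hb : Bridgeless G) (hcc : CycConn4 G) (hw : IsWeight G w)
    (hno : ¬ ∃ C : G.Subgraph, Removable G w C) {e : Sym2 V} (he : e ∈ G.edgeSet) (h2 : w e = 2)
    (hcov : CoverMinus G w e) : IsP10 G w := by
  obtain ⟨n, C, hC, hcount⟩ := hcov
  induction e using Sym2.ind with
  | _ x y =>
    exact graph_side abstr ⟨hG, hw, hb, he, h2, fun C hC => hno ⟨C, hC⟩⟩ hcc
      (fun h => hno (removable_of_cover hw he h)) (C := C) ⟨hC, hcount⟩

end Pool.Agent.H34CP.Gr
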