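import Pool.Agent.H34CP.Gr.Defs
import Pool.Agent.H34CP.Gr.Col

/-!
# From the coloured graph to the abstract pair
-/

namespace Pool.Agent.H34CP.Gr

open Pool.Agent.H66.GD Pool.Agent.H21.PT Finset
open scoped Classical

universe u
variable {V : Type u} [Fintype V] {G : SimpleGraph V} {w : Sym2 V → ℕ} {x y : V}

/-- Joined by an edge of weight one and of colour `c`, or by the path through `x`. -/
def RR (G : SimpleGraph V) (w : Sym2 V → ℕ) (x : V) (c : V → V → Prop) (v u : V) : Prop :=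
  (W1 G w v u ∧ c v u) ∨ (W1 G w x v ∧ W1 G w x u ∧ u ≠ v)

/-- The dictionary between the graph and the abstract pair. -/
structure Dict (G : SimpleGraph V) (w : Sym2 V → ℕ) (x y : V) (m : V → V) (c : V → V → Prop)
    (S : V → Prop) (P : Pair {v // S v}) : Prop where
  hS : ∀ v, S v ↔ v ≠ x ∧ v ≠ y
  mu : ∀ v : {v // S v}, (P.mu v : V) = m v
  al : ∀ v u : {v // S v}, RR G w x c v u ↔ u = P.al v
  be : ∀ v u : {v // S v}, RR G w y (fun a b => ¬ c a b) v u ↔ u = P.be v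
  p0 : W1 G w x P.p0
  q0 : W1 G w y P.q0
  hm : Typ G w m
  hc : PreCol G w x y c True False
  hxy : W2 G w x y

theorem PreCol.flip {c : V → V → Prop} (hc : PreCol G w x y c True False) :
    PreCol G w y x (fun a b => ¬ c a b) True False where
  symm u v h := fun h' => h (hc.symm _ _ h')
  mid v h1 h2 a b h3 h4 h5 := by
    have := hc.mid v h2 h1 a b h3 h4 h5
    tauto
  atx a ha := by
    have := hc.aty a ha
    tauto
  aty a ha := by
    have := hc.atx a ha
    tauto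

theorem Dict.swap {m : V → V} {c : V → V → Prop} {S : V → Prop} {P : Pair {v // S v}}
    (d : Dict G w x y m c S P) : Dict G w y x m (fun a b => ¬ c a b) S P.swap where
  hS v := (d.hS v).trans and_comm
  mu := d.mu
  al := d.be
  be v u := by
    rw [← show u = P.al v ↔ u = P.swap.be v from Iff.rfl, ← d.al v u]
    unfold RR
    simp only [not_not]
  p0 := d.q0
  q0 := d.p0
  hm := d.hm
  hc := d.hc.flip
  hxy := W2_symm d.hxy

theorem Typ.invol {m : V → V} (hm : Typ G w m) (v : V) : m (m v) = v :=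
  (hm.uniq _ _ (W2_symm (hm.adj v))).symm

omit [Fintype V] in
theorem Typ.other {m : V → V} (hm : Typ G w m) {v a : V} (ha : W1 G w v a) :
    ∃ b, b ≠ a ∧ ∀ u, W1 G w v u ↔ u = a ∨ u = b := by
  obtain ⟨p, q, hpq, h⟩ := hm.two v
  rcases (h a).1 ha with rfl | rfl
  · exact ⟨q, hpq.symm, h⟩
  · exact ⟨p, hpq, fun u => by rw [h u, or_comm]⟩

/-- The two edges of weight one at a vertex other than `x`, `y`. -/
theorem PreCol.pick {m : V → V} {c : V → V → Prop} (hm : Typ G w m)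
    (hc : PreCol G w x y c True False) {v : V} (h1 : v ≠ x) (h2 : v ≠ y) :
    ∃ a b, a ≠ b ∧ (∀ u, W1 G w v u ↔ u = a ∨ u = b) ∧ c v a ∧ ¬ c v b := by
  obtain ⟨p, q, hpq, h⟩ := hm.two v
  have h3 := hc.mid v h1 h2 p q hpq ((h p).2 (Or.inl rfl)) ((h q).2 (Or.inr rfl))
  by_cases h4 : c v p
  · exact ⟨p, q, hpq, h, h4, h3.1 h4⟩
  · refine ⟨q, p, hpq.symm, fun u => by rw [h u, or_comm], ?_, h4⟩
    by_contra h5
    exact h4 (h3.2 h5)

theorem exists_al {m : V → V} {c : V → V → Prop} (hm : Typ G w m)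
    (hc : PreCol G w x y c True False) (hxy : W2 G w x y) {v : V} (h1 : v ≠ x) (h2 : v ≠ y) :
    ∃ u, u ≠ x ∧ u ≠ y ∧ ∀ u', (u' ≠ x ∧ u' ≠ y) → (RR G w x c v u' ↔ u' = u) := by
  obtain ⟨a, b, hab, h, ha, hb⟩ := hc.pick hm h1 h2
  have hva : W1 G w v a := (h a).2 (Or.inl rfl)
  by_cases hax : a = x
  · subst hax
    obtain ⟨u, hu1, hu2⟩ := hm.other (W1_symm hva)
    have hu3 : W1 G w a u := (hu2 u).2 (Or.inr rfl)
    refine ⟨u, ?_, ?_, ?_⟩
    · rintro rfl; exact G.loopless.irrefl _ hu3.1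
    · rintro rfl; exact W12 hu3 hxy
    · rintro u' ⟨h3, h4⟩
      constructor
      · rintro (⟨h5, h6⟩ | ⟨h5, h6, h7⟩)
        · rcases (h u').1 h5 with rfl | rfl
          · exact absurd rfl h3
          · exact absurd h6 hb
        · rcases (hu2 u').1 h6 with rfl | rfl
          · exact absurd rfl h7
          · rfl
      · rintro rfl
        exact Or.inr ⟨W1_symm hva, hu3, hu1⟩
  · refine ⟨a, hax, ?_, ?_⟩
    · rintro rfl
      exact (hc.aty v (W1_symm hva)).1 (hc.symm _ _ ha)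
    · rintro u' ⟨h3, h4⟩
      constructor
      · rintro (⟨h5, h6⟩ | ⟨h5, h6, h7⟩)
        · rcases (h u').1 h5 with rfl | rfl
          · rfl
          · exact absurd h6 hb
        · exfalso
          have h8 : c v x := hc.symm _ _ ((hc.atx v h5).2 trivial)
          rcases (h x).1 (W1_symm h5) with h9 | h9
          · exact hax h9.symm
          · rw [h9] at h8; exact hb h8
      · rintro rfl
        exact Or.inl ⟨hva, ha⟩

theorem RR_symm {c : V → V → Prop} (hs : ∀ u v, c u v → c v u) {v u : V} (h : RR G w x c v u) :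
    RR G w x c u v := by
  rcases h with ⟨h1, h2⟩ | ⟨h1, h2, h3⟩
  · exact Or.inl ⟨W1_symm h1, hs _ _ h2⟩
  · exact Or.inr ⟨h2, h1, h3.symm⟩

omit [Fintype V] in
theorem RR_irrefl {c : V → V → Prop} {v : V} : ¬ RR G w x c v v := by
  rintro (⟨h1, h2⟩ | ⟨h1, h2, h3⟩)
  · exact G.loopless.irrefl _ h1.1
  · exact h3 rfl

/-- **The abstract pair.** -/
theorem exists_pair {m : V → V} {c : V → V → Prop} (hm : Typ G w m)
    (hc : PreCol G w x y c True False) (hxy : W2 G w x y) :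
    ∃ P : Pair {v : V // v ≠ x ∧ v ≠ y}, Dict G w x y m c (fun v => v ≠ x ∧ v ≠ y) P := by
  have hal : ∀ v : {v : V // v ≠ x ∧ v ≠ y}, ∃ u : {v : V // v ≠ x ∧ v ≠ y},
      ∀ u' : {v : V // v ≠ x ∧ v ≠ y}, RR G w x c v u' ↔ u' = u := by
    intro v
    obtain ⟨u, h1, h2, h3⟩ := exists_al hm hc hxy v.2.1 v.2.2
    exact ⟨⟨u, h1, h2⟩, fun u' => (h3 u' u'.2).trans (Subtype.ext_iff (a2 := ⟨u, h1, h2⟩)).symm⟩
  have hbe : ∀ v : {v : V // v ≠ x ∧ v ≠ y}, ∃ u : {v : V // v ≠ x ∧ v ≠ y},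
      ∀ u' : {v : V // v ≠ x ∧ v ≠ y}, RR G w y (fun a b => ¬ c a b) v u' ↔ u' = u := by
    intro v
    obtain ⟨u, h1, h2, h3⟩ := exists_al hm hc.flip (W2_symm hxy) v.2.2 v.2.1
    exact ⟨⟨u, h2, h1⟩, fun u' => (h3 u' u'.2.symm).trans (Subtype.ext_iff (a2 := ⟨u, h2, h1⟩)).symm⟩
  choose al hal using hal
  choose be hbe using hbe
  have hmx : m x = y := (hm.uniq _ _ hxy).symm
  have hmy : m y = x := (hm.uniq _ _ (W2_symm hxy)).symm
  have hmE : ∀ v : V, v ≠ x ∧ v ≠ y → m v ≠ x ∧ m v ≠ y := by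
    rintro v ⟨h1, h2⟩
    constructor
    · intro h
      apply h2
      rw [← hm.invol v, h, hmx]
    · intro h
      apply h1
      rw [← hm.invol v, h, hmy]
  have hp : ∃ p, W1 G w x p := by
    obtain ⟨a, b, _, h⟩ := hm.two x
    exact ⟨a, (h a).2 (Or.inl rfl)⟩
  have hq : ∃ q, W1 G w y q := by
    obtain ⟨a, b, _, h⟩ := hm.two y
    exact ⟨a, (h a).2 (Or.inl rfl)⟩
  obtain ⟨p, hp⟩ := hp
  obtain ⟨q, hq⟩ := hq
  have hpE : p ≠ x ∧ p ≠ y := by
    constructor
    · rintro rfl; exact G.loopless.irrefl _ hp.1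
    · rintro rfl; exact W12 hp hxy
  have hqE : q ≠ x ∧ q ≠ y := by
    constructor
    · rintro rfl; exact W12 hq (W2_symm hxy)
    · rintro rfl; exact G.loopless.irrefl _ hq.1
  refine ⟨{ mu := fun v => ⟨m v, hmE v v.2⟩, al := al, be := be, p0 := ⟨p, hpE⟩, q0 := ⟨q, hqE⟩,
            mu_mu := fun v => Subtype.ext (hm.invol v),
            al_al := ?_, be_be := ?_, mu_ne := ?_, al_ne := ?_, be_ne := ?_ }, ?_⟩
  · intro v
    exact ((hal _ _).1 (RR_symm hc.symm ((hal v (al v)).2 rfl))).symm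
  · intro v
    exact ((hbe _ _).1 (RR_symm hc.flip.symm ((hbe v (be v)).2 rfl))).symm
  · intro v h
    have h1 := (hm.adj v).1
    rw [show m v = v from congrArg Subtype.val h] at h1
    exact G.loopless.irrefl _ h1
  · intro v h
    have h1 := (hal v (al v)).2 rfl
    rw [h] at h1
    exact RR_irrefl h1
  · intro v h
    have h1 := (hbe v (be v)).2 rfl
    rw [h] at h1
    exact RR_irrefl h1
  · exact ⟨fun v => Iff.rfl, fun v => rfl, hal, hbe, hp, hq, hm, hc, hxy⟩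

end Pool.Agent.H34CP.Gr
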